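import Mathlib

set_option autoImplicit false

open scoped ComplexOrder MatrixOrder
open Matrix

namespace Pool.Agent.V5helper19.SubExp

lemma prod_bound {k : ℕ} (hk : 1 ≤ k) (μ : Fin k → ℝ) (hμ : ∀ i, 0 ≤ μ i)
    (h : ∏ i, ((1 - 1 / (2 * k)) + 1 / (2 * k) * μ i) ≤ 2) (i : Fin k) : μ i ≤ 7 * k := by
  have hk' : (1 : ℝ) ≤ k := by exact_mod_cast hk
  set t : ℝ := 1 / (2 * k) with ht
  have ht0 : 0 < t := by positivity
  have ht1 : t ≤ 1 / 2 := by
    rw [ht]; apply one_div_le_one_div_of_le <;> linarith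
  have htk : t * (2 * k) = 1 := by rw [ht]; field_simp
  have h1t : 0 ≤ 1 - t := by linarith
  -- split off the factor i
  have hsplit : ∏ j, ((1 - t) + t * μ j)
      = ((1 - t) + t * μ i) * ∏ j ∈ Finset.univ.erase i, ((1 - t) + t * μ j) :=
    (Finset.mul_prod_erase _ _ (Finset.mem_univ i)).symm
  have hrest : (1 - t) ^ (k - 1) ≤ ∏ j ∈ Finset.univ.erase i, ((1 - t) + t * μ j) := by
    have hc : (Finset.univ.erase i).card = k - 1 := by
      rw [Finset.card_erase_of_mem (Finset.mem_univ i), Finset.card_univ, Fintype.card_fin]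
    rw [← hc, ← Finset.prod_const]
    apply Finset.prod_le_prod
    · intro j _; exact h1t
    · intro j _
      have := mul_nonneg ht0.le (hμ j)
      linarith
  have hbern : 1 / 2 ≤ (1 - t) ^ (k - 1) := by
    have hb := one_add_mul_le_pow (a := -t) (by linarith) (k - 1)
    have e : (1 + -t) = 1 - t := by ring
    rw [e] at hb
    have hcast : ((k - 1 : ℕ) : ℝ) = (k : ℝ) - 1 := by
      rw [Nat.cast_sub hk]; simp
    rw [hcast] at hb
    nlinarith
  have hpos : 0 ≤ (1 - t) + t * μ i := by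
    have := mul_nonneg ht0.le (hμ i)
    linarith
  have h3 : ((1 - t) + t * μ i) * (1 / 2) ≤ 2 := by
    calc ((1 - t) + t * μ i) * (1 / 2) ≤ ((1 - t) + t * μ i) * ∏ j ∈ Finset.univ.erase i, ((1 - t) + t * μ j) :=
          mul_le_mul_of_nonneg_left (hbern.trans hrest) hpos
      _ ≤ 2 := by rw [← hsplit]; exact h
  -- t μ_i ≤ 3 + t
  have h4 : t * μ i ≤ 3 + t := by linarith
  have h5 : (2 * k) * (t * μ i) ≤ (2 * k) * (3 + t) := mul_le_mul_of_nonneg_left h4 (by positivity)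
  have h6 : (2 * (k : ℝ)) * (t * μ i) = μ i := by
    rw [← mul_assoc, mul_comm (2 * (k : ℝ)) t, htk, one_mul]
  rw [h6] at h5
  nlinarith

lemma loewner {k : ℕ} (hk : 1 ≤ k) {P Q : Matrix (Fin k) (Fin k) ℂ} (hP : P.PosDef)
    (hQ : Q.PosSemidef)
    (h : (((1 - 1 / (2 * k) : ℝ) : ℂ) • P + ((1 / (2 * k) : ℝ) : ℂ) • Q).det.re ≤ 2 * P.det.re) :
    (((7 * k : ℝ) : ℂ) • P - Q).PosSemidef := by
  obtain ⟨y, hy, rfl⟩ := CStarAlgebra.isStrictlyPositive_iff_eq_star_mul_self.mp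
        hP.isStrictlyPositive
  rw [star_eq_conjTranspose] at *
  set t : ℝ := 1 / (2 * k) with ht
  have hydet : IsUnit y.det := (isUnit_iff_isUnit_det y).1 hy
  have hyy : y⁻¹ * y = 1 := nonsing_inv_mul y hydet
  have hyy' : yᴴ * (y⁻¹)ᴴ = 1 := by
    rw [← conjTranspose_mul, hyy, conjTranspose_one]
  set Q' := (y⁻¹)ᴴ * Q * y⁻¹ with hQ'
  have hQ'ps : Q'.PosSemidef := hQ.conjTranspose_mul_mul_same _
  have hQQ : Q = yᴴ * Q' * y := by
    rw [hQ']
    have : yᴴ * ((y⁻¹)ᴴ * Q * y⁻¹) * y = (yᴴ * (y⁻¹)ᴴ) * Q * (y⁻¹ * y) := by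
      simp only [Matrix.mul_assoc]
    rw [this, hyy, hyy', Matrix.one_mul, Matrix.mul_one]
  have hH := hQ'ps.isHermitian
  set μ := hH.eigenvalues with hμ
  have hμ0 : ∀ i, 0 ≤ μ i := fun i => hQ'ps.eigenvalues_nonneg i
  set U : Matrix (Fin k) (Fin k) ℂ := (hH.eigenvectorUnitary : Matrix (Fin k) (Fin k) ℂ) with hU
  have hUU : U * Uᴴ = 1 := by
    have := Unitary.mul_star_self_of_mem hH.eigenvectorUnitary.2
    simpa [star_eq_conjTranspose] using this
  have hspec : Q' = U * diagonal (fun i => (μ i : ℂ)) * Uᴴ := by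
    have := hH.spectral_theorem
    rw [Unitary.conjStarAlgAut_apply] at this
    simpa [star_eq_conjTranspose, Function.comp_def] using this
  -- general linear combination
  have hcomb : ∀ a b : ℂ, a • (1 : Matrix (Fin k) (Fin k) ℂ) + b • Q'
      = U * diagonal (fun i => a + b * (μ i : ℂ)) * Uᴴ := by
    intro a b
    have h1 : (diagonal (fun i => a + b * (μ i : ℂ)) : Matrix (Fin k) (Fin k) ℂ)
        = a • 1 + b • diagonal (fun i => (μ i : ℂ)) := by
      ext i j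
      by_cases hij : i = j
      · subst hij; simp
      · simp [hij]
    rw [h1, Matrix.mul_add, Matrix.add_mul, hspec]
    simp only [Matrix.mul_smul, Matrix.smul_mul, Matrix.mul_one, hUU]
  have hdet : (a b : ℂ) → (a • (yᴴ * y) + b • Q).det = (yᴴ * y).det * ∏ i, (a + b * (μ i : ℂ)) := by
    intro a b
    have h1 : a • (yᴴ * y) + b • Q = yᴴ * (a • 1 + b • Q') * y := by
      rw [hQQ, Matrix.mul_add, Matrix.add_mul]
      simp only [Matrix.mul_smul, Matrix.smul_mul, Matrix.mul_one]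
    rw [h1, hcomb, det_mul, det_mul, det_mul, det_mul, det_diagonal]
    have h2 : U.det * Uᴴ.det = 1 := by rw [← det_mul, hUU, det_one]
    rw [det_mul]
    linear_combination (yᴴ.det * (∏ i, (a + b * (μ i : ℂ))) * y.det) * h2
  -- product bound
  have hPpos : 0 < (yᴴ * y).det := hP.det_pos
  have hPre : 0 < (yᴴ * y).det.re := (Complex.pos_iff.1 hPpos).1
  have hPim : (yᴴ * y).det.im = 0 := ((Complex.pos_iff.1 hPpos).2).symm
  have hprod : ∏ i, ((1 - t) + t * μ i) ≤ 2 := by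
    rw [hdet] at h
    have h2 : (∏ i, ((((1 - t : ℝ)) : ℂ) + ((t : ℝ) : ℂ) * (μ i : ℂ)))
        = ((∏ i, ((1 - t) + t * μ i) : ℝ) : ℂ) := by
      push_cast; rfl
    rw [h2, Complex.mul_re, Complex.ofReal_re, Complex.ofReal_im, mul_zero, sub_zero] at h
    by_contra hcon
    push Not at hcon
    nlinarith
  have hbd := fun i => prod_bound hk μ hμ0 hprod i
  have hfin : ((7 * k : ℝ) : ℂ) • (yᴴ * y) - Q
      = yᴴ * (U * diagonal (fun i => ((7 * k : ℝ) : ℂ) + (-1) * (μ i : ℂ)) * Uᴴ) * y := by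
    rw [← hcomb, hQQ, Matrix.mul_add, Matrix.add_mul]
    simp only [Matrix.mul_smul, Matrix.smul_mul, Matrix.mul_one, neg_smul, one_smul,
      Matrix.mul_neg, Matrix.neg_mul, sub_eq_add_neg]
  rw [hfin]
  apply PosSemidef.conjTranspose_mul_mul_same
  apply PosSemidef.mul_mul_conjTranspose_same
  rw [posSemidef_diagonal_iff]
  intro i
  have := hbd i
  have h3 : ((7 * k : ℝ) : ℂ) + (-1) * (μ i : ℂ) = ((7 * k - μ i : ℝ) : ℂ) := by push_cast; ring
  rw [h3]
  exact_mod_cast (by linarith : (0:ℝ) ≤ 7 * k - μ i)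

end Pool.Agent.V5helper19.SubExp
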