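import Mathlib

set_option autoImplicit false

open scoped ComplexOrder

namespace Pool.Agent.V5helper19.SubExp

section States

variable {A : Type} [CStarAlgebra A] [PartialOrder A] [StarOrderedRing A]

/-- `‖1 + b‖ = 1 + ‖b‖` for `b ≥ 0`. -/
lemma norm_one_add [Nontrivial A] {b : A} (hb : 0 ≤ b) : ‖1 + b‖ = 1 + ‖b‖ := by
  apply le_antisymm
  · calc ‖1 + b‖ ≤ ‖(1 : A)‖ + ‖b‖ := norm_add_le _ _
      _ = 1 + ‖b‖ := by rw [norm_one]
  · have h1 : ‖b‖ ∈ spectrum ℝ b := CStarAlgebra.norm_mem_spectrum_of_nonneg hb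
    have h2 : 1 + ‖b‖ ∈ spectrum ℝ (1 + b) := by
      have := (spectrum.add_mem_add_iff (a := b) (r := ‖b‖) (s := (1 : ℝ))).2 h1
      simpa [add_comm] using this
    have h3 := spectrum.norm_le_norm_of_mem h2
    rwa [Real.norm_of_nonneg (by positivity)] at h3

/-- A norm-one functional with `f 1 = 1` is real on self-adjoint elements. -/
lemma im_eq_zero_of_norm_le {f : A →L[ℂ] ℂ} (hf : ‖f‖ ≤ 1) (h1 : f 1 = 1) {h : A}
    (hh : IsSelfAdjoint h) : (f h).im = 0 := by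
  by_contra hne
  set β := (f h).im with hβ
  -- for all real t: (β + t)^2 ≤ ‖h‖^2 + t^2
  have key : ∀ t : ℝ, (β + t) ^ 2 ≤ ‖h‖ ^ 2 + t ^ 2 := by
    intro t
    have e1 : f (h + (t * Complex.I : ℂ) • (1 : A)) = f h + t * Complex.I := by
      rw [map_add, map_smul, h1]; simp
    have e2 : ‖f (h + (t * Complex.I : ℂ) • (1 : A))‖ ^ 2
        ≤ ‖h + (t * Complex.I : ℂ) • (1 : A)‖ ^ 2 := by
      have := f.le_opNorm (h + (t * Complex.I : ℂ) • (1 : A))
      have h' : ‖f (h + (t * Complex.I : ℂ) • (1 : A))‖ ≤ ‖h + (t * Complex.I : ℂ) • (1 : A)‖ :=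
        this.trans (by nlinarith [norm_nonneg (h + (t * Complex.I : ℂ) • (1 : A))])
      exact pow_le_pow_left₀ (norm_nonneg _) h' 2
    have e3 : ‖h + (t * Complex.I : ℂ) • (1 : A)‖ ^ 2 ≤ ‖h‖ ^ 2 + t ^ 2 := by
      have e4 : star (h + (t * Complex.I : ℂ) • (1 : A)) * (h + (t * Complex.I : ℂ) • (1 : A))
          = h * h + ((t ^ 2 : ℝ) : ℂ) • (1 : A) := by
        rw [star_add, star_smul, star_one, hh.star_eq]
        simp only [add_mul, mul_add, smul_mul_assoc, mul_smul_comm, one_mul, mul_one]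
        have this : (star ((t : ℂ) * Complex.I)) = -((t : ℂ) * Complex.I) := by
          simp [Complex.ext_iff]
        have e5 : (t : ℂ) * Complex.I * -((t : ℂ) * Complex.I) = ((t ^ 2 : ℝ) : ℂ) := by
          push_cast
          ring_nf
          rw [Complex.I_sq]; ring
        rw [this, smul_add, smul_smul, e5, neg_smul]
        abel
      calc ‖h + (t * Complex.I : ℂ) • (1 : A)‖ ^ 2
          = ‖star (h + (t * Complex.I : ℂ) • (1 : A)) * (h + (t * Complex.I : ℂ) • (1 : A))‖ := by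
            rw [CStarRing.norm_star_mul_self, sq]
        _ = ‖h * h + ((t ^ 2 : ℝ) : ℂ) • (1 : A)‖ := by rw [e4]
        _ ≤ ‖h * h‖ + ‖((t ^ 2 : ℝ) : ℂ) • (1 : A)‖ := norm_add_le _ _
        _ ≤ ‖h‖ ^ 2 + t ^ 2 := by
            have a1 : ‖h * h‖ ≤ ‖h‖ ^ 2 := by rw [sq]; exact norm_mul_le _ _
            have a2 : ‖((t ^ 2 : ℝ) : ℂ) • (1 : A)‖ ≤ t ^ 2 := by
              rw [norm_smul, Complex.norm_real, Real.norm_of_nonneg (by positivity)]
              rcases subsingleton_or_nontrivial A with hA | hA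
              · have : (1 : A) = 0 := Subsingleton.elim _ _
                rw [this, norm_zero, mul_zero]; positivity
              · rw [norm_one, mul_one]
            linarith
    have e6 : (β + t) ^ 2 ≤ ‖f (h + (t * Complex.I : ℂ) • (1 : A))‖ ^ 2 := by
      rw [e1]
      have : (f h + t * Complex.I).im = β + t := by simp [hβ]
      rw [← this, ← sq_abs]
      exact pow_le_pow_left₀ (abs_nonneg _) (Complex.abs_im_le_norm _) 2
    linarith
  -- choose t = ‖h‖^2 / β  (then 2 β t = 2 ‖h‖^2)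
  have := key ((‖h‖ ^ 2 + 1) / (2 * β))
  have hb2 : 2 * β * ((‖h‖ ^ 2 + 1) / (2 * β)) = ‖h‖ ^ 2 + 1 := by
    field_simp
  nlinarith [sq_nonneg β, hb2, this, sq_pos_of_ne_zero (show β ≠ 0 from hne)]

/-- A norm-one functional with `f 1 = 1` is positive. -/
lemma nonneg_of_norm_le {f : A →L[ℂ] ℂ} (hf : ‖f‖ ≤ 1) (h1 : f 1 = 1) {a : A}
    (ha : 0 ≤ a) : 0 ≤ f a := by
  rcases subsingleton_or_nontrivial A with hA | hA
  · have : a = 0 := Subsingleton.elim _ _
    rw [this, map_zero]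
  have him := im_eq_zero_of_norm_le hf h1 (IsSelfAdjoint.of_nonneg ha)
  rw [Complex.nonneg_iff]
  refine ⟨?_, him.symm⟩
  -- ‖ ‖a‖ - a ‖ ≤ ‖a‖
  have hle : a ≤ algebraMap ℝ A ‖a‖ := IsSelfAdjoint.le_algebraMap_norm_self (IsSelfAdjoint.of_nonneg ha)
  have hn : ‖algebraMap ℝ A ‖a‖ - a‖ ≤ ‖a‖ := by
    have h0 : 0 ≤ algebraMap ℝ A ‖a‖ - a := sub_nonneg.2 hle
    have h2 : algebraMap ℝ A ‖a‖ - a ≤ algebraMap ℝ A ‖a‖ := by
      simpa using ha
    have := CStarAlgebra.norm_le_norm_of_nonneg_of_le h0 h2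
    refine this.trans ?_
    rw [norm_algebraMap', Real.norm_of_nonneg (norm_nonneg _)]
  have h3 : ‖f (algebraMap ℝ A ‖a‖ - a)‖ ≤ ‖a‖ := by
    refine (f.le_opNorm _).trans ?_
    nlinarith [norm_nonneg (algebraMap ℝ A ‖a‖ - a), norm_nonneg f]
  have h4 : f (algebraMap ℝ A ‖a‖ - a) = (‖a‖ : ℂ) - f a := by
    rw [map_sub, Algebra.algebraMap_eq_smul_one]
    have : (‖a‖ : ℝ) • (1 : A) = ((‖a‖ : ℝ) : ℂ) • (1 : A) := by
      rw [Complex.coe_smul]
    rw [this, map_smul, h1]; simp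
  rw [h4] at h3
  have h5 := (Complex.abs_re_le_norm _).trans h3
  have h6 : ((‖a‖ : ℂ) - f a).re = ‖a‖ - (f a).re := by simp
  rw [h6] at h5
  have := (abs_le.1 h5).2
  linarith

/-- States norm all elements. -/
lemma exists_state [Nontrivial A] (a : A) :
    ∃ f : A →ₚ[ℂ] ℂ, f 1 = 1 ∧ (f (star a * a)).re = ‖a‖ ^ 2 := by
  set b := star a * a with hb
  have hb0 : 0 ≤ b := star_mul_self_nonneg a
  have hn : ‖1 + b‖ = 1 + ‖b‖ := norm_one_add hb0
  have hne : ‖1 + b‖ ≠ 0 := by rw [hn]; positivity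
  obtain ⟨f, hf1, hf2⟩ := exists_dual_vector ℂ (1 + b) hne
  have hfle : ‖f‖ ≤ 1 := hf1.le
  have e1 : ‖f 1‖ ≤ 1 := by
    have := f.le_opNorm 1
    rw [norm_one, hf1] at this
    simpa using this
  have e2 : ‖f b‖ ≤ ‖b‖ := by
    have := f.le_opNorm b
    rwa [hf1, one_mul] at this
  have e3 : f 1 + f b = 1 + ‖b‖ := by
    rw [← map_add, hf2, hn]; push_cast; rfl
  have e4 : (f 1).re + (f b).re = 1 + ‖b‖ := by
    have := congrArg Complex.re e3
    simpa using this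
  have e5 : (f 1).re ≤ 1 := (Complex.re_le_norm _).trans e1
  have e6 : (f b).re ≤ ‖b‖ := (Complex.re_le_norm _).trans e2
  have e7 : (f 1).re = 1 := by linarith
  have e8 : (f b).re = ‖b‖ := by linarith
  have e9 : f 1 = 1 := by
    apply Complex.ext
    · simpa using e7
    · have h1 : ‖f 1‖ ^ 2 = (f 1).re ^ 2 + (f 1).im ^ 2 := by
        rw [← Complex.normSq_eq_norm_sq, Complex.normSq_apply]; ring
      have : (f 1).im ^ 2 ≤ 0 := by
        have : ‖f 1‖ ^ 2 ≤ 1 := by nlinarith [norm_nonneg (f 1)]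
        rw [h1, e7] at this; linarith
      have : (f 1).im = 0 := by nlinarith [sq_nonneg (f 1).im]
      simpa using this
  refine ⟨PositiveLinearMap.mk₀ (f : A →ₗ[ℂ] ℂ) (fun x hx => nonneg_of_norm_le hfle e9 hx), ?_, ?_⟩
  · exact e9
  · have : ‖b‖ = ‖a‖ ^ 2 := by rw [hb, CStarRing.norm_star_mul_self, sq]
    rw [← this]
    exact e8

end States

end Pool.Agent.V5helper19.SubExp
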