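import Mathlib
import Pool.Agent.V5helper19.SubExp.State
import Pool.Agent.V5helper19.SubExp.Loewner

set_option autoImplicit false

open scoped ComplexOrder
open Matrix

namespace Pool.Agent.V5helper19.SubExp

variable {A : Type} [CStarAlgebra A] [PartialOrder A] [StarOrderedRing A]

lemma pos_im (f : A →ₚ[ℂ] ℂ) (a : A) : (f (star a * a)).im = 0 :=
  ((Complex.nonneg_iff.1 (f.map_nonneg (star_mul_self_nonneg a))).2).symm

lemma pos_re (f : A →ₚ[ℂ] ℂ) (a : A) : 0 ≤ (f (star a * a)).re :=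
  (Complex.nonneg_iff.1 (f.map_nonneg (star_mul_self_nonneg a))).1

lemma state_le (f : A →ₚ[ℂ] ℂ) (h1 : f 1 = 1) (a : A) : (f (star a * a)).re ≤ ‖a‖ ^ 2 := by
  have h := f.norm_apply_le_of_nonneg (star a * a) (star_mul_self_nonneg a)
  rw [h1, norm_one, one_mul, CStarRing.norm_star_mul_self, ← sq] at h
  exact (Complex.re_le_norm _).trans h

/-- Cauchy-Schwarz. -/
lemma state_cs (f : A →ₚ[ℂ] ℂ) (x y : A) :
    ‖f (star x * y)‖ ^ 2 ≤ (f (star x * x)).re * (f (star y * y)).re := by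
  have h := norm_inner_le_norm (𝕜 := ℂ) (f.toPreGNS x) (f.toPreGNS y)
  rw [f.preGNS_inner_def] at h
  have h2 := pow_le_pow_left₀ (norm_nonneg _) h 2
  rw [mul_pow] at h2
  have e : ∀ z : A, ‖f.toPreGNS z‖ ^ 2 = (f (star z * z)).re := by
    intro z
    have := f.preGNS_norm_sq (f.toPreGNS z)
    have h3 := congrArg Complex.re this
    simpa [← Complex.ofReal_pow] using h3
  rw [e, e] at h2
  exact h2

lemma state_norm_le (f : A →ₚ[ℂ] ℂ) (h1 : f 1 = 1) (x y : A) :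
    ‖f (star x * y)‖ ≤ ‖x‖ * ‖y‖ := by
  have h := state_cs f x y
  have hx := state_le f h1 x
  have hy := state_le f h1 y
  have : ‖f (star x * y)‖ ^ 2 ≤ (‖x‖ * ‖y‖) ^ 2 := by
    rw [mul_pow]
    exact h.trans (mul_le_mul hx hy (pos_re f y) (by positivity))
  exact (pow_le_pow_iff_left₀ (norm_nonneg _) (by positivity) two_ne_zero).1 this

/-- Gram matrix. -/
noncomputable def gram {k : ℕ} (f : A →ₚ[ℂ] ℂ) (b : Fin k → A) : Matrix (Fin k) (Fin k) ℂ :=
  Matrix.of fun i j => f (star (b i) * b j)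

lemma gram_quad {k : ℕ} (f : A →ₚ[ℂ] ℂ) (b : Fin k → A) (v : Fin k → ℂ) :
    star v ⬝ᵥ (gram f b *ᵥ v) = f (star (∑ i, v i • b i) * (∑ j, v j • b j)) := by
  simp only [dotProduct, mulVec, gram, Matrix.of_apply, Pi.star_apply, star_sum, star_smul,
    Finset.sum_mul, Finset.mul_sum, map_sum, smul_mul_assoc, mul_smul_comm, map_smul, smul_eq_mul]
  rw [Finset.sum_comm]
  refine Finset.sum_congr rfl fun i _ => ?_
  refine Finset.sum_congr rfl fun j _ => ?_
  ring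

lemma gram_posSemidef {k : ℕ} (f : A →ₚ[ℂ] ℂ) (b : Fin k → A) : (gram f b).PosSemidef := by
  refine PosSemidef.of_dotProduct_mulVec_nonneg ?_ ?_
  · ext i j
    simp only [gram, conjTranspose_apply, Matrix.of_apply]
    rw [← map_star f, star_mul, star_star]
  · intro v
    rw [gram_quad]
    exact f.map_nonneg (star_mul_self_nonneg _)

/-- Convex combinations of states. -/
noncomputable def mix (f g : A →ₚ[ℂ] ℂ) (s t : ℝ) (hs : 0 ≤ s) (ht : 0 ≤ t) : A →ₚ[ℂ] ℂ :=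
  PositiveLinearMap.mk₀ ((s : ℂ) • (f : A →ₗ[ℂ] ℂ) + (t : ℂ) • (g : A →ₗ[ℂ] ℂ)) (by
    intro x hx
    have h1 : (0 : ℂ) ≤ f x := f.map_nonneg hx
    have h2 : (0 : ℂ) ≤ g x := g.map_nonneg hx
    have hs' : (0 : ℂ) ≤ (s : ℂ) := by exact_mod_cast hs
    have ht' : (0 : ℂ) ≤ (t : ℂ) := by exact_mod_cast ht
    exact add_nonneg (mul_nonneg hs' h1) (mul_nonneg ht' h2))

lemma mix_apply (f g : A →ₚ[ℂ] ℂ) (s t : ℝ) (hs : 0 ≤ s) (ht : 0 ≤ t) (x : A) :
    mix f g s t hs ht x = (s : ℂ) * f x + (t : ℂ) * g x := rfl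

/-- **Regular states.** -/
theorem exists_regular_state [Nontrivial A] (G : Submodule ℂ A) [FiniteDimensional ℂ G]
    (hG : 1 ≤ Module.finrank ℂ G) :
    ∃ f : A →ₚ[ℂ] ℂ, f 1 = 1 ∧
      ∀ a ∈ G, ‖a‖ ^ 2 ≤ 14 * (Module.finrank ℂ G) * (f (star a * a)).re := by
  classical
  set k := Module.finrank ℂ G with hk
  have hk1 : (1 : ℝ) ≤ k := by exact_mod_cast hG
  let bas : Module.Basis (Fin k) ℂ G := Module.finBasis ℂ G
  set b : Fin k → A := fun i => (bas i : A) with hb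
  -- equivalence of norms
  obtain ⟨L, hL0, hL⟩ : ∃ L : ℝ, 0 < L ∧ ∀ c : Fin k → ℂ, ∑ i, ‖c i‖ ^ 2 ≤ L * ‖∑ i, c i • b i‖ ^ 2 := by
    let e := (bas.equivFun).toContinuousLinearEquiv
    refine ⟨k * (‖(e : G →L[ℂ] (Fin k → ℂ))‖ + 1) ^ 2, by positivity, fun c => ?_⟩
    set a : G := ∑ i, c i • bas i with ha
    have h1 : e a = c := by
      have : bas.equivFun a = c := by
        rw [ha, Module.Basis.equivFun_apply]
        ext i
        simp [map_sum, Finsupp.single_apply]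
      exact this
    have h2 : ‖c‖ ≤ (‖(e : G →L[ℂ] (Fin k → ℂ))‖ + 1) * ‖a‖ := by
      have := (e : G →L[ℂ] (Fin k → ℂ)).le_opNorm a
      have h3 : (e : G →L[ℂ] (Fin k → ℂ)) a = c := h1
      rw [h3] at this
      nlinarith [norm_nonneg a]
    have h3 : ‖∑ i, c i • b i‖ = ‖a‖ := by
      have h4 : ((a : G) : A) = ∑ i, c i • b i := by
        rw [ha]; push_cast; rfl
      rw [← h4]; rfl
    rw [h3]
    calc ∑ i, ‖c i‖ ^ 2 ≤ ∑ _i : Fin k, ‖c‖ ^ 2 := by
          apply Finset.sum_le_sum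
          intro i _
          exact pow_le_pow_left₀ (norm_nonneg _) (norm_le_pi_norm c i) 2
      _ = k * ‖c‖ ^ 2 := by simp
      _ ≤ k * ((‖(e : G →L[ℂ] (Fin k → ℂ))‖ + 1) * ‖a‖) ^ 2 := by gcongr
      _ = _ := by ring
  -- η
  set η : ℝ := 1 / (14 * k * L) with hη
  have hη0 : 0 < η := by positivity
  -- P_f
  let P : (A →ₚ[ℂ] ℂ) → Matrix (Fin k) (Fin k) ℂ := fun f => gram f b + (η : ℂ) • 1
  have hηC : (0 : ℂ) < (η : ℂ) := by exact_mod_cast hη0
  have hPpd : ∀ f, (P f).PosDef := by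
    intro f
    exact PosDef.posSemidef_add (gram_posSemidef f b) (PosDef.one.smul hηC)
  let S : Set ℝ := {x | ∃ f : A →ₚ[ℂ] ℂ, f 1 = 1 ∧ x = (P f).det.re}
  have hSne : S.Nonempty := by
    obtain ⟨f, hf, -⟩ := exists_state (0 : A)
    exact ⟨_, f, hf, rfl⟩
  have hSbdd : BddAbove S := by
    set B : ℝ := (∑ i, ‖b i‖) ^ 2 + η with hB
    refine ⟨k.factorial • B ^ k, ?_⟩
    rintro x ⟨f, hf, rfl⟩
    have hent : ∀ i j, ‖(P f) i j‖ ≤ B := by
      intro i j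
      have h1 : ‖gram f b i j‖ ≤ (∑ i, ‖b i‖) ^ 2 := by
        simp only [gram, Matrix.of_apply]
        refine (state_norm_le f hf _ _).trans ?_
        rw [sq]
        exact mul_le_mul (Finset.single_le_sum (f := fun i => ‖b i‖) (fun _ _ => norm_nonneg _) (Finset.mem_univ i))
          (Finset.single_le_sum (f := fun i => ‖b i‖) (fun _ _ => norm_nonneg _) (Finset.mem_univ j))
          (norm_nonneg _) (Finset.sum_nonneg fun _ _ => norm_nonneg _)
      have h2 : ‖((η : ℂ) • (1 : Matrix (Fin k) (Fin k) ℂ)) i j‖ ≤ η := by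
        by_cases hij : i = j
        · subst hij; simp [abs_of_pos hη0]
        · simp [Matrix.one_apply_ne hij, hη0.le]
      calc ‖(P f) i j‖ = ‖gram f b i j + ((η : ℂ) • (1 : Matrix (Fin k) (Fin k) ℂ)) i j‖ := rfl
        _ ≤ _ := (norm_add_le _ _).trans (add_le_add h1 h2)
    have h3 := Matrix.det_le (A := P f) (abv := NormedField.toAbsoluteValue ℂ) (x := B) hent
    simp only [Fintype.card_fin] at h3
    exact (Complex.re_le_norm _).trans h3
  have hSpos : 0 < sSup S := by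
    obtain ⟨x, f, hf, hx⟩ := hSne
    have : 0 < x := by rw [hx]; exact (Complex.pos_iff.1 (hPpd f).det_pos).1
    exact this.trans_le (le_csSup hSbdd ⟨f, hf, hx⟩)
  obtain ⟨x, ⟨f, hf, rfl⟩, hx⟩ := exists_lt_of_lt_csSup hSne (half_lt_self hSpos)
  refine ⟨f, hf, ?_⟩
  intro a ha
  obtain ⟨g, hg1, hga⟩ := exists_state a
  set t : ℝ := 1 / (2 * k) with ht
  have ht0 : 0 ≤ t := by positivity
  have ht1 : t ≤ 1 := by
    rw [ht, div_le_one (by positivity)]; linarith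
  have hmix1 : mix f g (1 - t) t (by linarith) ht0 1 = 1 := by
    rw [mix_apply, hf, hg1]; push_cast; ring
  have hPmix : P (mix f g (1 - t) t (by linarith) ht0) = ((1 - t : ℝ) : ℂ) • P f + ((t : ℝ) : ℂ) • P g := by
    ext i j
    simp only [P, gram, Matrix.add_apply, Matrix.smul_apply, Matrix.of_apply, mix_apply, smul_eq_mul]
    push_cast; ring
  have hdet : (((1 - t : ℝ) : ℂ) • P f + ((t : ℝ) : ℂ) • P g).det.re ≤ 2 * (P f).det.re := by
    rw [← hPmix]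
    have := le_csSup hSbdd ⟨_, hmix1, rfl⟩
    linarith
  have hlo := loewner hG (hPpd f) (hPpd g).posSemidef hdet
  -- coordinates of a
  set c : Fin k → ℂ := bas.equivFun ⟨a, ha⟩ with hc
  have hac : ∑ i, c i • b i = a := by
    have := bas.sum_equivFun ⟨a, ha⟩
    have h2 := congrArg (Submodule.subtype G) this
    rw [map_sum] at h2
    simp only [map_smul, Submodule.subtype_apply] at h2
    exact h2
  have hq := hlo.re_dotProduct_nonneg c
  have hqf : ∀ h : A →ₚ[ℂ] ℂ, (star c ⬝ᵥ (P h *ᵥ c)).re = (h (star a * a)).re + η * ∑ i, ‖c i‖ ^ 2 := by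
    intro h
    simp only [P, Matrix.add_mulVec, dotProduct_add, gram_quad, hac, Complex.add_re]
    congr 1
    rw [Matrix.smul_mulVec, Matrix.one_mulVec, dotProduct_smul, smul_eq_mul]
    simp only [dotProduct, Pi.star_apply, Complex.star_def]
    have : ∑ i, (starRingEnd ℂ) (c i) * c i = ((∑ i, ‖c i‖ ^ 2 : ℝ) : ℂ) := by
      push_cast
      refine Finset.sum_congr rfl fun i _ => ?_
      rw [Complex.conj_mul']
    rw [this, ← Complex.ofReal_mul, Complex.ofReal_re]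
  have hq2 : 0 ≤ 7 * k * ((f (star a * a)).re + η * ∑ i, ‖c i‖ ^ 2)
      - ((g (star a * a)).re + η * ∑ i, ‖c i‖ ^ 2) := by
    rw [Matrix.sub_mulVec, dotProduct_sub, Matrix.smul_mulVec, dotProduct_smul, smul_eq_mul] at hq
    have h1 := hqf f
    have h2 := hqf g
    simp only [map_sub] at hq
    have h3 : RCLike.re (((7 * k : ℝ) : ℂ) * (star c ⬝ᵥ P f *ᵥ c)) = 7 * k * (star c ⬝ᵥ P f *ᵥ c).re := by
      have := Complex.re_ofReal_mul (7 * k : ℝ) (star c ⬝ᵥ P f *ᵥ c)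
      exact this
    rw [h3, h1] at hq
    have h4 : RCLike.re (star c ⬝ᵥ P g *ᵥ c) = (star c ⬝ᵥ P g *ᵥ c).re := rfl
    rw [h4, h2] at hq
    exact hq
  rw [hga] at hq2
  have hcn : ∑ i, ‖c i‖ ^ 2 ≤ L * ‖a‖ ^ 2 := by
    have := hL c; rwa [hac] at this
  have hs0 : 0 ≤ ∑ i, ‖c i‖ ^ 2 := Finset.sum_nonneg fun _ _ => by positivity
  have hηs : 7 * k * (η * ∑ i, ‖c i‖ ^ 2) ≤ ‖a‖ ^ 2 / 2 := by
    calc 7 * k * (η * ∑ i, ‖c i‖ ^ 2) ≤ 7 * k * (η * (L * ‖a‖ ^ 2)) := by gcongr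
      _ = ‖a‖ ^ 2 / 2 := by rw [hη]; field_simp; ring
  have hηs0 : 0 ≤ η * ∑ i, ‖c i‖ ^ 2 := mul_nonneg hη0.le hs0
  nlinarith

end Pool.Agent.V5helper19.SubExp
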