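import Mathlib
import Pool.Agent.V5helper19.SubExp.Regular

set_option autoImplicit false

open scoped ComplexOrder InnerProductSpace
open Matrix

namespace Pool.Agent.V5helper19.SubExp

variable {A : Type} [CStarAlgebra A] [PartialOrder A] [StarOrderedRing A]

/-- The map from `A` to the GNS space. -/
noncomputable def J (f : A →ₚ[ℂ] ℂ) : A →ₗ[ℂ] f.GNS :=
  (UniformSpace.Completion.toComplL (𝕜 := ℂ) (E := f.PreGNS)).toLinearMap ∘ₗ (f.toPreGNS : A →ₗ[ℂ] f.PreGNS)

lemma J_inner (f : A →ₚ[ℂ] ℂ) (a b : A) : ⟪J f a, J f b⟫_ℂ = f (star a * b) := by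
  have : ⟪J f a, J f b⟫_ℂ = ⟪((f.toPreGNS a : f.PreGNS) : f.GNS), ((f.toPreGNS b : f.PreGNS) : f.GNS)⟫_ℂ := rfl
  rw [this, UniformSpace.Completion.inner_coe, f.preGNS_inner_def]
  simp

lemma J_norm (f : A →ₚ[ℂ] ℂ) (a : A) : ‖J f a‖ ^ 2 = (f (star a * a)).re := by
  rw [← J_inner]
  have := inner_self_eq_norm_sq (𝕜 := ℂ) (J f a)
  exact this.symm

lemma exists_adapted_H {H : Type*} [NormedAddCommGroup H] [InnerProductSpace ℂ H]
    (V : ℕ → Submodule ℂ H) (hV : Monotone V) [∀ n, FiniteDimensional ℂ (V n)] (N : ℕ) :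
    ∃ (ι : Type) (_ : Fintype ι) (v : ι → H) (d : ι → ℕ), Orthonormal ℂ v ∧ (∀ i, d i ≤ N) ∧
      (∀ i, v i ∈ V (d i)) ∧ (∀ i, ∀ n < d i, ∀ w ∈ V n, ⟪v i, w⟫_ℂ = 0) ∧
      ∀ n ≤ N, V n ≤ Submodule.span ℂ (Set.range v) := by
  induction N with
  | zero =>
    let b := stdOrthonormalBasis ℂ (V 0)
    refine ⟨Fin (Module.finrank ℂ (V 0)), inferInstance, fun i => (b i : H), fun _ => 0, ?_, ?_, ?_, ?_, ?_⟩
    · exact b.orthonormal.comp_linearIsometry (V 0).subtypeₗᵢ
    · intro i; exact le_rfl
    · intro i; exact (b i).2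
    · intro i n hn; exact absurd hn (Nat.not_lt_zero n)
    · intro n hn
      have hn0 : n = 0 := Nat.le_zero.1 hn
      subst hn0
      intro w hw
      have h1 := b.toBasis.mem_span ⟨w, hw⟩
      have h2 := Submodule.mem_map_of_mem (f := (V 0).subtype) h1
      rw [Submodule.map_span] at h2
      have h3 : (V 0).subtype '' (Set.range b.toBasis) = Set.range (fun i => ((b i : V 0) : H)) := by
        ext z; simp
      rw [h3] at h2
      exact h2
  | succ N ih =>
    obtain ⟨ι, _, v, d, ho, hd, hv, hz, hs⟩ := ih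
    let W : Submodule ℂ H := (V N)ᗮ ⊓ V (N + 1)
    have : FiniteDimensional ℂ W := Submodule.finiteDimensional_inf_right _ _
    let b := stdOrthonormalBasis ℂ W
    refine ⟨ι ⊕ Fin (Module.finrank ℂ W), inferInstance, Sum.elim v (fun i => (b i : H)),
      Sum.elim d (fun _ => N + 1), ?_, ?_, ?_, ?_, ?_⟩
    · have hb : Orthonormal ℂ (fun i => (b i : H)) := b.orthonormal.comp_linearIsometry W.subtypeₗᵢ
      have hvb : ∀ i j, ⟪v i, (b j : H)⟫_ℂ = 0 := by
        intro i j
        have h1 : v i ∈ V N := hV (hd i) (hv i)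
        have h2 : (b j : H) ∈ (V N)ᗮ := (b j).2.1
        exact (Submodule.mem_orthogonal _ _).1 h2 _ h1
      constructor
      · rintro (i | i)
        · exact ho.1 i
        · exact hb.1 i
      · rintro (i | i) (j | j) hij
        · exact ho.2 (fun h => hij (by rw [h]))
        · exact hvb i j
        · have := hvb j i
          simp only [Sum.elim_inl, Sum.elim_inr]
          rw [← inner_conj_symm, this, map_zero]
        · exact hb.2 (fun h => hij (by rw [h]))
    · rintro (i | i)
      · exact (hd i).trans (Nat.le_succ N)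
      · exact le_rfl
    · rintro (i | i)
      · exact hv i
      · exact (b i).2.2
    · rintro (i | i) n hn w hw
      · exact hz i n hn w hw
      · simp only [Sum.elim_inr] at hn ⊢
        have h1 : w ∈ V N := hV (Nat.lt_succ_iff.1 hn) hw
        have h2 : (b i : H) ∈ (V N)ᗮ := (b i).2.1
        have := (Submodule.mem_orthogonal _ _).1 h2 _ h1
        rw [← inner_conj_symm, this, map_zero]
    · intro n hn
      have hold : Submodule.span ℂ (Set.range v) ≤ Submodule.span ℂ (Set.range (Sum.elim v (fun i => (b i : H)))) := by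
        apply Submodule.span_mono
        rintro _ ⟨i, rfl⟩
        exact ⟨Sum.inl i, rfl⟩
      rcases Nat.lt_or_ge n (N + 1) with h | h
      · exact (hs n (Nat.lt_succ_iff.1 h)).trans hold
      · have : n = N + 1 := le_antisymm hn h
        subst this
        have hsup : V N ⊔ (V N)ᗮ ⊓ V (N + 1) = V (N + 1) :=
          Submodule.sup_orthogonal_inf_of_hasOrthogonalProjection (hV (Nat.le_succ N))
        rw [← hsup]
        apply sup_le
        · exact (hs N le_rfl).trans hold
        · intro w hw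
          have h1 := b.toBasis.mem_span ⟨w, hw⟩
          have h2 := Submodule.mem_map_of_mem (f := W.subtype) h1
          rw [Submodule.map_span] at h2
          refine Submodule.span_mono ?_ h2
          rintro _ ⟨z, ⟨i, rfl⟩, rfl⟩
          exact ⟨Sum.inr i, by simp⟩

theorem exists_adapted (f : A →ₚ[ℂ] ℂ) (F : ℕ → Submodule ℂ A) (hF : Monotone F)
    (hfin : ∀ n, FiniteDimensional ℂ (F n)) (N : ℕ)
    (hdef : ∀ a ∈ F N, (f (star a * a)).re = 0 → a = 0) :
    ∃ (k : ℕ) (x : Fin k → A) (d : Fin k → ℕ), k ≤ Module.finrank ℂ (F N) ∧ (∀ i, d i ≤ N) ∧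
      (∀ i, x i ∈ F (d i)) ∧ (∀ i j, f (star (x i) * x j) = if i = j then 1 else 0) ∧
      (∀ n, ∀ y ∈ F n, ∀ i, n < d i → f (star (x i) * y) = 0) ∧
      ∀ y ∈ F N, y = ∑ i, f (star (x i) * y) • x i := by
  classical
  let V : ℕ → Submodule ℂ f.GNS := fun n => (F n).map (J f)
  have hV : Monotone V := fun m n hmn => Submodule.map_mono (hF hmn)
  have : ∀ n, FiniteDimensional ℂ (V n) := fun n => by
    have := hfin n
    infer_instance
  obtain ⟨ι, _, v, d, ho, hd, hv, hz, hs⟩ := exists_adapted_H V hV N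
  have hcard : Fintype.card ι ≤ Module.finrank ℂ (F N) := by
    have := hfin N
    have h1 : LinearIndependent ℂ v := ho.linearIndependent
    have hvN : ∀ i, v i ∈ V N := fun i => hV (hd i) (hv i)
    have h2 : LinearIndependent ℂ (fun i => (⟨v i, hvN i⟩ : V N)) := by
      refine LinearIndependent.of_comp (V N).subtype ?_
      exact h1
    have h3 := h2.fintype_card_le_finrank
    exact h3.trans (Submodule.finrank_map_le (J f) (F N))
  let e := Fintype.equivFin ι
  choose! a ha1 ha2 using fun i => (Submodule.mem_map.1 (hv i))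
  refine ⟨Fintype.card ι, fun i => a (e.symm i), fun i => d (e.symm i), hcard, fun i => hd _,
    fun i => ha1 _, ?_, ?_, ?_⟩
  · intro i j
    rw [← J_inner, ha2, ha2, orthonormal_iff_ite.1 ho]
    simp
  · intro n y hy i hn
    rw [← J_inner, ha2]
    exact hz _ n hn _ (Submodule.mem_map_of_mem hy)
  · intro y hy
    have h1 : J f y ∈ Submodule.span ℂ (Set.range v) := hs N le_rfl (Submodule.mem_map_of_mem hy)
    obtain ⟨c, hc⟩ := (Submodule.mem_span_range_iff_exists_fun ℂ).1 h1
    have hcoef : ∀ i, ⟪v i, J f y⟫_ℂ = c i := by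
      intro i
      rw [← hc, ho.inner_right_fintype]
    have hsum : J f y = ∑ i, f (star (a i) * y) • v i := by
      rw [← hc]
      refine Finset.sum_congr rfl fun i _ => ?_
      rw [← J_inner, ha2, hcoef]
    have hmem : ∀ i, a i ∈ F N := fun i => hF (hd i) (ha1 i)
    set z := ∑ i, f (star (a i) * y) • a i with hz'
    have hzN : z ∈ F N := Submodule.sum_mem _ fun i _ => Submodule.smul_mem _ _ (hmem i)
    have hJ : J f (y - z) = 0 := by
      rw [map_sub, hsum, hz', map_sum]
      simp only [map_smul, ha2, sub_self]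
    have h0 : y - z = 0 := by
      apply hdef _ (Submodule.sub_mem _ hy hzN)
      rw [← J_norm, hJ]; simp
    have hyz : y = z := sub_eq_zero.1 h0
    exact hyz.trans (Equiv.sum_comp e.symm (fun i => f (star (a i) * y) • a i)).symm

end Pool.Agent.V5helper19.SubExp
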