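import Mathlib
import Pool.Agent.V5helper19.SubExp.Regular

set_option autoImplicit false

open scoped ComplexOrder InnerProductSpace WithCStarModule
open Matrix

namespace Pool.Agent.V5helper19.SubExp

variable {A : Type} [CStarAlgebra A] [PartialOrder A] [StarOrderedRing A]

/-- Cauchy-Schwarz for finite families in a C*-algebra. -/
lemma norm_sum_star_mul_le {R : Type} [Fintype R] (u w : R → A) :
    ‖∑ r, star (u r) * w r‖ ^ 2 ≤ ‖∑ r, star (u r) * u r‖ * ‖∑ r, star (w r) * w r‖ := by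
  let x : C⋆ᵐᵒᵈ(A, R → A) := (WithCStarModule.equiv A (R → A)).symm (fun r => star (w r))
  let y : C⋆ᵐᵒᵈ(A, R → A) := (WithCStarModule.equiv A (R → A)).symm (fun r => star (u r))
  have h := CStarModule.norm_inner_le (A := A) (C⋆ᵐᵒᵈ(A, R → A)) (x := x) (y := y)
  have h2 := pow_le_pow_left₀ (norm_nonneg _) h 2
  rw [mul_pow, WithCStarModule.pi_norm_sq, WithCStarModule.pi_norm_sq, WithCStarModule.pi_inner] at h2
  have e1 : (∑ i, inner A (x i) (y i)) = ∑ r, star (u r) * w r := by
    refine Finset.sum_congr rfl fun i _ => ?_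
    change star (u i) * star (star (w i)) = _
    rw [star_star]
  have e2 : (∑ i, inner A (x i) (x i)) = ∑ r, star (w r) * w r := by
    refine Finset.sum_congr rfl fun i _ => ?_
    change star (w i) * star (star (w i)) = _
    rw [star_star]
  have e3 : (∑ i, inner A (y i) (y i)) = ∑ r, star (u r) * u r := by
    refine Finset.sum_congr rfl fun i _ => ?_
    change star (u i) * star (star (u i)) = _
    rw [star_star]
  rw [e1, e2, e3] at h2
  linarith

lemma exists_sqrt_sum {B : Type} [CStarAlgebra B] {R : Type} [Fintype R] (Z : R → B) :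
    ∃ z : B, ∑ r, star (Z r) * Z r = star z * z := by
  let _ := CStarAlgebra.spectralOrder B
  have := CStarAlgebra.spectralOrderedRing B
  have hpos : 0 ≤ ∑ r, star (Z r) * Z r :=
    Finset.sum_nonneg fun r _ => star_mul_self_nonneg _
  exact CStarAlgebra.nonneg_iff_eq_star_mul_self.1 hpos

/-- A Gram matrix over a C*-algebra is of the form `zᴴ * z`. -/
lemma exists_gram_sqrt {R : Type} [Fintype R] (n : ℕ) (W : R → Fin n → A) :
    ∃ z : Matrix (Fin n) (Fin n) A,
      (Matrix.of fun a b => ∑ r, star (W r a) * W r b) = zᴴ * z := by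
  classical
  rcases Nat.eq_zero_or_pos n with hn | hn
  · subst hn
    refine ⟨0, ?_⟩
    ext i; exact Fin.elim0 i
  let i0 : Fin n := ⟨0, hn⟩
  let Z : R → CStarMatrix (Fin n) (Fin n) A := fun r =>
    CStarMatrix.ofMatrix (Matrix.of fun i j => if i = i0 then W r j else 0)
  obtain ⟨z, hz⟩ := exists_sqrt_sum Z
  refine ⟨CStarMatrix.ofMatrix.symm z, ?_⟩
  ext a b
  have h1 : (∑ r, star (Z r) * Z r) a b = (star z * z) a b := congrFun (congrFun hz a) b
  have h2 : (∑ r, star (Z r) * Z r) a b = ∑ r, (star (Z r) * Z r) a b := by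
    have : ∀ s : Finset R, (∑ r ∈ s, star (Z r) * Z r) a b = ∑ r ∈ s, (star (Z r) * Z r) a b := by
      intro s
      induction s using Finset.induction_on with
      | empty => rfl
      | insert r s hr ih => 
        rw [Finset.sum_insert hr, Finset.sum_insert hr, ← ih]
        rfl
    exact this _
  have h3 : ∀ r, (star (Z r) * Z r) a b = star (W r a) * W r b := by
    intro r
    have h4 : (star (Z r) * Z r) a b = ∑ j, (star (Z r)) a j * (Z r) j b := rfl
    rw [h4, Finset.sum_eq_single i0]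
    · have h5 : (star (Z r)) a i0 = star ((Z r) i0 a) := rfl
      rw [h5]
      simp [Z, CStarMatrix.ofMatrix_apply]
    · intro j _ hj
      simp [Z, CStarMatrix.ofMatrix_apply, hj]
    · intro h; exact absurd (Finset.mem_univ _) h
  rw [h2] at h1
  simp only [h3] at h1
  rw [Matrix.of_apply, h1, Matrix.mul_apply]
  rfl


/-- Operators on `ℂ^k`. -/
abbrev Op (k : ℕ) := EuclideanSpace ℂ (Fin k) →L[ℂ] EuclideanSpace ℂ (Fin k)

/-- The matrix of an operator. -/
noncomputable def mat {k : ℕ} (T : Op k) : Matrix (Fin k) (Fin k) ℂ :=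
  (Matrix.toEuclideanCLM (n := Fin k) (𝕜 := ℂ)).symm T

lemma mat_mul {k : ℕ} (S T : Op k) : mat (S * T) = mat S * mat T := by
  unfold mat; exact map_mul _ _ _

lemma mat_star {k : ℕ} (T : Op k) : mat (star T) = (mat T)ᴴ := by
  exact ((Matrix.toEuclideanCLM (n := Fin k) (𝕜 := ℂ)).symm).map_star' T

/-- `ψ(T) = ∑ v_{li}^* T_{ij} v_{lj}`. -/
noncomputable def kraus {k : ℕ} {Λ : Type} [Fintype Λ] (v : Λ → Fin k → A) : Op k →ₗ[ℂ] A where
  toFun T := ∑ l, ∑ i, ∑ j, mat T i j • (star (v l i) * v l j)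
  map_add' S T := by
    simp only [mat, map_add, Matrix.add_apply, add_smul, Finset.sum_add_distrib]
  map_smul' c T := by
    simp only [mat, map_smul, Matrix.smul_apply, smul_eq_mul, mul_smul, Finset.smul_sum,
      RingHom.id_apply]

lemma kraus_apply {k : ℕ} {Λ : Type} [Fintype Λ] (v : Λ → Fin k → A) (T : Op k) :
    kraus v T = ∑ l, ∑ i, ∑ j, mat T i j • (star (v l i) * v l j) := rfl

lemma kraus_star_mul {k : ℕ} {Λ : Type} [Fintype Λ] (v : Λ → Fin k → A) (S T : Op k) :
    kraus v (star S * T) = ∑ l, ∑ t, star (∑ i, mat S t i • v l i) * (∑ j, mat T t j • v l j) := by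
  rw [kraus_apply]
  refine Finset.sum_congr rfl fun l _ => ?_
  have e1 : ∀ t, star (∑ i, mat S t i • v l i) * (∑ j, mat T t j • v l j)
      = ∑ i, ∑ j, (star (mat S t i) * mat T t j) • (star (v l i) * v l j) := by
    intro t
    rw [star_sum, Finset.sum_mul]
    refine Finset.sum_congr rfl fun i _ => ?_
    rw [Finset.mul_sum]
    refine Finset.sum_congr rfl fun j _ => ?_
    rw [star_smul, smul_mul_assoc, mul_smul_comm, smul_smul]
  have e2 : ∀ i j, mat (star S * T) i j • (star (v l i) * v l j)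
      = ∑ t, (star (mat S t i) * mat T t j) • (star (v l i) * v l j) := by
    intro i j
    rw [mat_mul, mat_star, Matrix.mul_apply, Finset.sum_smul]
    rfl
  simp only [e1, e2]
  rw [Finset.sum_comm]
  rw [Finset.sum_congr rfl fun j _ => Finset.sum_comm]
  rw [Finset.sum_comm]
  refine Finset.sum_congr rfl fun t _ => ?_
  rw [Finset.sum_comm]

/-- `kraus v` is completely positive. -/
lemma kraus_cp {k : ℕ} {Λ : Type} [Fintype Λ] (v : Λ → Fin k → A) (n : ℕ)
    (y : Matrix (Fin n) (Fin n) (Op k)) :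
    ∃ z : Matrix (Fin n) (Fin n) A, (yᴴ * y).map (kraus v) = zᴴ * z := by
  obtain ⟨z, hz⟩ := exists_gram_sqrt n
    (fun (r : Fin n × Λ × Fin k) (a : Fin n) => ∑ j, mat (y r.1 a) r.2.2 j • v r.2.1 j)
  refine ⟨z, ?_⟩
  rw [← hz]
  ext a b
  rw [Matrix.map_apply, Matrix.of_apply, Matrix.mul_apply, map_sum]
  rw [Fintype.sum_prod_type]
  refine Finset.sum_congr rfl fun c _ => ?_
  rw [Matrix.conjTranspose_apply, kraus_star_mul, Fintype.sum_prod_type]

lemma kraus_norm_le {k : ℕ} {Λ : Type} [Fintype Λ] (v : Λ → Fin k → A)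
    (hv : ∑ l, ∑ i, star (v l i) * v l i ≤ 1) (T : Op k) : ‖kraus v T‖ ≤ ‖T‖ := by
  classical
  rcases subsingleton_or_nontrivial A with hA | hA
  · have : kraus v T = 0 := Subsingleton.elim _ _
    rw [this, norm_zero]; exact norm_nonneg _
  have hv0 : 0 ≤ ∑ l, ∑ i, star (v l i) * v l i :=
    Finset.sum_nonneg fun l _ => Finset.sum_nonneg fun i _ => star_mul_self_nonneg _
  have hvn : ‖∑ l, ∑ i, star (v l i) * v l i‖ ≤ 1 := by
    have := CStarAlgebra.norm_le_norm_of_nonneg_of_le hv0 hv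
    rwa [norm_one] at this
  -- write `T = 1^* T`
  have e1 : kraus v T = ∑ r : Λ × Fin k, star (v r.1 r.2) * (∑ j, mat T r.2 j • v r.1 j) := by
    have := kraus_star_mul v 1 T
    rw [star_one, one_mul] at this
    rw [this, Fintype.sum_prod_type]
    refine Finset.sum_congr rfl fun l _ => ?_
    refine Finset.sum_congr rfl fun t _ => ?_
    have h1 : ∑ i, mat (1 : Op k) t i • v l i = v l t := by
      have : mat (1 : Op k) = 1 := by unfold mat; exact map_one _
      rw [this, Finset.sum_eq_single t]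
      · simp
      · intro j _ hj; rw [Matrix.one_apply_ne (Ne.symm hj), zero_smul]
      · intro h; exact absurd (Finset.mem_univ _) h
    rw [h1]
  have h := norm_sum_star_mul_le (fun r : Λ × Fin k => v r.1 r.2)
    (fun r : Λ × Fin k => ∑ j, mat T r.2 j • v r.1 j)
  rw [← e1] at h
  have e2 : ∑ r : Λ × Fin k, star (v r.1 r.2) * v r.1 r.2 = ∑ l, ∑ i, star (v l i) * v l i := by
    rw [Fintype.sum_prod_type]
  have e3 : ∑ r : Λ × Fin k, star (∑ j, mat T r.2 j • v r.1 j) * (∑ j, mat T r.2 j • v r.1 j)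
      = kraus v (star T * T) := by
    rw [kraus_star_mul, Fintype.sum_prod_type]
  rw [e2, e3] at h
  -- `kraus v (‖T‖² - T*T) ≥ 0`
  have hle : star T * T ≤ algebraMap ℝ (Op k) (‖T‖ ^ 2) := CStarAlgebra.star_mul_le_algebraMap_norm_sq
  obtain ⟨S, hS⟩ := CStarAlgebra.nonneg_iff_eq_star_mul_self.1 (sub_nonneg.2 hle)
  have h4 : 0 ≤ kraus v (algebraMap ℝ (Op k) (‖T‖ ^ 2) - star T * T) := by
    rw [hS, kraus_star_mul]
    exact Finset.sum_nonneg fun l _ => Finset.sum_nonneg fun i _ => star_mul_self_nonneg _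
  have h5 : kraus v (algebraMap ℝ (Op k) (‖T‖ ^ 2)) = (‖T‖ ^ 2) • ∑ l, ∑ i, star (v l i) * v l i := by
    have e5 : algebraMap ℝ (Op k) (‖T‖ ^ 2) = ((‖T‖ ^ 2 : ℝ) : ℂ) • (1 : Op k) := by
      rw [Algebra.algebraMap_eq_smul_one]
      ext v i
      simp
    rw [e5, map_smul, Complex.coe_smul, ← star_one, ← mul_one (star (1 : Op k)), kraus_star_mul]
    congr 1
    refine Finset.sum_congr rfl fun l _ => ?_
    refine Finset.sum_congr rfl fun t _ => ?_
    have h1 : ∑ i, mat (1 : Op k) t i • v l i = v l t := by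
      have : mat (1 : Op k) = 1 := by unfold mat; exact map_one _
      rw [this, Finset.sum_eq_single t]
      · simp
      · intro j _ hj; rw [Matrix.one_apply_ne (Ne.symm hj), zero_smul]
      · intro h; exact absurd (Finset.mem_univ _) h
    rw [h1]
  rw [map_sub, h5, sub_nonneg] at h4
  have h6 : 0 ≤ kraus v (star T * T) := by
    rw [kraus_star_mul]
    exact Finset.sum_nonneg fun l _ => Finset.sum_nonneg fun i _ => star_mul_self_nonneg _
  have h7 : ‖kraus v (star T * T)‖ ≤ ‖T‖ ^ 2 := by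
    have := CStarAlgebra.norm_le_norm_of_nonneg_of_le h6 h4
    rw [norm_smul, Real.norm_of_nonneg (by positivity)] at this
    nlinarith [sq_nonneg ‖T‖]
  have h8 : ‖kraus v T‖ ^ 2 ≤ ‖T‖ ^ 2 := by
    calc ‖kraus v T‖ ^ 2 ≤ _ := h
      _ ≤ 1 * ‖T‖ ^ 2 := mul_le_mul hvn h7 (norm_nonneg _) zero_le_one
      _ = ‖T‖ ^ 2 := one_mul _
  exact (pow_le_pow_iff_left₀ (norm_nonneg _) (norm_nonneg _) two_ne_zero).1 h8

end Pool.Agent.V5helper19.SubExp
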