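import Mathlib
import Pool.Agent.V5helper19.SubExp.Kraus

set_option autoImplicit false

open scoped ComplexOrder InnerProductSpace
open Matrix

namespace Pool.Agent.V5helper19.SubExp

variable {A : Type} [CStarAlgebra A] [PartialOrder A] [StarOrderedRing A]

/-- The operator with a given matrix. -/
noncomputable def op {k : ℕ} (M : Matrix (Fin k) (Fin k) ℂ) : Op k :=
  Matrix.toEuclideanCLM (n := Fin k) (𝕜 := ℂ) M

lemma mat_op {k : ℕ} (M : Matrix (Fin k) (Fin k) ℂ) : mat (op M) = M := by
  unfold mat op; simp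

lemma op_mat {k : ℕ} (T : Op k) : op (mat T) = T := by
  unfold mat op; simp

lemma op_mul {k : ℕ} (M N : Matrix (Fin k) (Fin k) ℂ) : op (M * N) = op M * op N := by
  unfold op; exact map_mul _ _ _

lemma op_star {k : ℕ} (M : Matrix (Fin k) (Fin k) ℂ) : op (Mᴴ) = star (op M) :=
  (Matrix.toEuclideanCLM (n := Fin k) (𝕜 := ℂ)).map_star' M

lemma op_apply {k : ℕ} (M : Matrix (Fin k) (Fin k) ℂ) (v : EuclideanSpace ℂ (Fin k)) (i : Fin k) :
    op M v i = ∑ j, M i j * v j := by
  unfold op
  have h := Matrix.ofLp_toEuclideanCLM M v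
  have h2 := congrFun h i
  rw [h2]
  rfl

/-- The compression of `a` to the span of the `x i`. -/
noncomputable def comp {k : ℕ} (f : A →ₚ[ℂ] ℂ) (x : Fin k → A) : A →ₗ[ℂ] Op k where
  toFun a := op (Matrix.of fun i j => f (star (x i) * a * x j))
  map_add' a b := by
    unfold op
    rw [← map_add]
    congr 1
    ext i j
    simp [mul_add, add_mul]
  map_smul' c a := by
    unfold op
    rw [RingHom.id_apply, ← map_smul]
    congr 1
    ext i j
    simp

lemma comp_apply {k : ℕ} (f : A →ₚ[ℂ] ℂ) (x : Fin k → A) (a : A) :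
    comp f x a = op (Matrix.of fun i j => f (star (x i) * a * x j)) := rfl

lemma comp_cp {k : ℕ} (f : A →ₚ[ℂ] ℂ) (x : Fin k → A) (n : ℕ) (y : Matrix (Fin n) (Fin n) A) :
    ∃ z : Matrix (Fin n) (Fin n) (Op k), (yᴴ * y).map (comp f x) = zᴴ * z := by
  classical
  let M : Matrix (Fin n × Fin k) (Fin n × Fin k) ℂ :=
    Matrix.of fun p q => f (star (x p.2) * ((yᴴ * y) p.1 q.1) * x q.2)
  have hM : M.PosSemidef := by
    have hMe : ∀ p q, M p q = ∑ c, f (star (y c p.1 * x p.2) * (y c q.1 * x q.2)) := by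
      intro p q
      simp only [M, Matrix.of_apply, Matrix.mul_apply, Matrix.conjTranspose_apply, Finset.mul_sum,
        Finset.sum_mul, map_sum]
      refine Finset.sum_congr rfl fun c _ => ?_
      rw [star_mul]
      simp only [mul_assoc]
    refine PosSemidef.of_dotProduct_mulVec_nonneg ?_ ?_
    · ext p q
      rw [Matrix.conjTranspose_apply, hMe, hMe, star_sum]
      refine Finset.sum_congr rfl fun c _ => ?_
      rw [← map_star f, star_mul, star_star]
    · intro v
      have : star v ⬝ᵥ (M *ᵥ v) = ∑ c, f (star (∑ p, v p • (y c p.1 * x p.2)) * (∑ q, v q • (y c q.1 * x q.2))) := by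
        simp only [dotProduct, mulVec, hMe, Pi.star_apply, star_sum, star_smul,
          Finset.sum_mul, Finset.mul_sum, map_sum, smul_mul_assoc, mul_smul_comm, map_smul, smul_eq_mul]
        rw [Finset.sum_congr rfl fun p _ => Finset.sum_comm]
        rw [Finset.sum_comm]
        refine Finset.sum_congr rfl fun c _ => ?_
        rw [Finset.sum_comm]
        refine Finset.sum_congr rfl fun i _ => ?_
        refine Finset.sum_congr rfl fun j _ => ?_
        ring
      rw [this]
      exact Finset.sum_nonneg fun c _ => f.map_nonneg (star_mul_self_nonneg _)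
  obtain ⟨B, hB⟩ : ∃ B : Matrix (Fin n × Fin k) (Fin n × Fin k) ℂ, M = Bᴴ * B := by
    open scoped MatrixOrder in
    exact CStarAlgebra.nonneg_iff_eq_star_mul_self.mp hM.nonneg
  let z : Fin n → Fin n → Op k := fun c b => op (Matrix.of fun t j => B (c, t) (b, j))
  have key : ∀ a b, comp f x ((yᴴ * y) a b) = ∑ c, star (z c a) * z c b := by
    intro a b
    have h1 : ∀ c, star (z c a) * z c b
        = op ((Matrix.of fun t j => B (c, t) (a, j))ᴴ * (Matrix.of fun t j => B (c, t) (b, j))) := by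
      intro c
      rw [op_mul, op_star]
    have h2 : ∑ c, star (z c a) * z c b
        = op (∑ c, ((Matrix.of fun t j => B (c, t) (a, j))ᴴ * (Matrix.of fun t j => B (c, t) (b, j)))) := by
      rw [Finset.sum_congr rfl fun c _ => h1 c]
      unfold op; rw [map_sum]
    rw [h2, comp_apply]
    congr 1
    ext i j
    have h3 : M (a, i) (b, j) = (Bᴴ * B) (a, i) (b, j) := by rw [hB]
    rw [Matrix.mul_apply, Fintype.sum_prod_type] at h3
    have h4 : M (a, i) (b, j) = f (star (x i) * ((yᴴ * y) a b) * x j) := rfl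
    rw [Matrix.of_apply, ← h4, h3, Matrix.sum_apply]
    refine Finset.sum_congr rfl fun c _ => ?_
    rw [Matrix.mul_apply]
    rfl
  refine ⟨Matrix.of z, ?_⟩
  refine Matrix.ext fun a b => ?_
  exact key a b

lemma comp_norm_le {k : ℕ} (f : A →ₚ[ℂ] ℂ) (x : Fin k → A)
    (hx : ∀ i j, f (star (x i) * x j) = if i = j then 1 else 0) (a : A) :
    ‖comp f x a‖ ≤ ‖a‖ := by
  classical
  -- norms of combinations
  have hcomb : ∀ v : Fin k → ℂ, (f (star (∑ i, v i • x i) * (∑ j, v j • x j))).re = ∑ i, ‖v i‖ ^ 2 := by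
    intro v
    have h1 : f (star (∑ i, v i • x i) * (∑ j, v j • x j)) = ∑ i, (starRingEnd ℂ) (v i) * v i := by
      rw [star_sum, Finset.sum_mul, map_sum]
      refine Finset.sum_congr rfl fun i _ => ?_
      rw [Finset.mul_sum, map_sum, Finset.sum_eq_single i]
      · rw [star_smul, smul_mul_assoc, mul_smul_comm, map_smul, map_smul, hx, if_pos rfl]
        simp
      · intro j _ hj
        rw [star_smul, smul_mul_assoc, mul_smul_comm, map_smul, map_smul, hx, if_neg (Ne.symm hj)]
        simp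
      · intro h; exact absurd (Finset.mem_univ _) h
    rw [h1, Complex.re_sum]
    refine Finset.sum_congr rfl fun i _ => ?_
    rw [Complex.conj_mul']
    norm_cast
  refine ContinuousLinearMap.opNorm_le_bound _ (norm_nonneg _) fun v => ?_
  set w := comp f x a v with hw
  set X : A := ∑ i, w i • x i with hX
  set Y : A := ∑ j, v j • x j with hY
  have hwn : (f (star X * X)).re = ‖w‖ ^ 2 := by
    rw [hX, hcomb, EuclideanSpace.norm_sq_eq]
  have hvn : (f (star Y * Y)).re = ‖v‖ ^ 2 := by
    rw [hY, hcomb, EuclideanSpace.norm_sq_eq]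
  have hinner : f (star X * (a * Y)) = ((‖w‖ ^ 2 : ℝ) : ℂ) := by
    have h1 : f (star X * (a * Y)) = ∑ i, (starRingEnd ℂ) (w i) * ∑ j, f (star (x i) * a * x j) * v j := by
      rw [hX, star_sum, Finset.sum_mul, map_sum]
      refine Finset.sum_congr rfl fun i _ => ?_
      rw [star_smul, smul_mul_assoc, map_smul, hY, Finset.mul_sum, Finset.mul_sum, map_sum, smul_eq_mul]
      congr 1
      refine Finset.sum_congr rfl fun j _ => ?_
      rw [mul_smul_comm, mul_smul_comm, map_smul, smul_eq_mul, mul_comm, ← mul_assoc (star (x i))]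
    rw [h1, EuclideanSpace.norm_sq_eq]
    push_cast
    refine Finset.sum_congr rfl fun i _ => ?_
    have h2 : ∑ j, f (star (x i) * a * x j) * v j = w i := by
      rw [hw, comp_apply, op_apply]
      rfl
    rw [h2, Complex.conj_mul']
  have hcs := state_cs f X (a * Y)
  rw [hinner, hwn] at hcs
  have h3 : (f (star (a * Y) * (a * Y))).re ≤ ‖a‖ ^ 2 * ‖v‖ ^ 2 := by
    rw [← hvn]
    have h4 : star (a * Y) * (a * Y) ≤ (‖a‖ ^ 2) • (star Y * Y) := by
      rw [star_mul]
      have : star Y * star a * (a * Y) = star Y * (star a * a) * Y := by simp only [mul_assoc]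
      rw [this, sq, ← CStarRing.norm_star_mul_self (x := a)]
      exact CStarAlgebra.star_left_conjugate_le_norm_smul
    have h5 : f (star (a * Y) * (a * Y)) ≤ f ((‖a‖ ^ 2) • (star Y * Y)) := OrderHomClass.mono f h4
    have h6 := (Complex.le_def.1 h5).1
    refine h6.trans (le_of_eq ?_)
    rw [← Complex.coe_smul, map_smul, smul_eq_mul, Complex.re_ofReal_mul]
  have h7 : ‖w‖ ^ 2 * ‖w‖ ^ 2 ≤ ‖w‖ ^ 2 * (‖a‖ ^ 2 * ‖v‖ ^ 2) := by
    calc ‖w‖ ^ 2 * ‖w‖ ^ 2 = ‖((‖w‖ ^ 2 : ℝ) : ℂ)‖ ^ 2 := by
          rw [Complex.norm_real, Real.norm_of_nonneg (by positivity)]; ring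
      _ ≤ ‖w‖ ^ 2 * (f (star (a * Y) * (a * Y))).re := hcs
      _ ≤ _ := mul_le_mul_of_nonneg_left h3 (by positivity)
  rcases eq_or_lt_of_le (norm_nonneg w) with h0 | h0
  · rw [← h0]; positivity
  · have h8 : ‖w‖ ^ 2 ≤ (‖a‖ * ‖v‖) ^ 2 := by
      rw [mul_pow]
      exact le_of_mul_le_mul_left h7 (by positivity)
    exact (pow_le_pow_iff_left₀ (norm_nonneg _) (by positivity) two_ne_zero).1 h8

end Pool.Agent.V5helper19.SubExp
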