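import Mathlib
import Pool.Agent.V5helper19.SubExp.Comp

set_option autoImplicit false

open scoped ComplexOrder InnerProductSpace
open Matrix

namespace Pool.Agent.V5helper19.SubExp

variable {A : Type} [CStarAlgebra A] [PartialOrder A] [StarOrderedRing A]

/-- The Cayley transform of `K ≥ 1`. -/
lemma exists_cayley {K : A} (hK : 1 ≤ K) :
    ∃ R C : A, star R = R ∧ star C = C ∧ C = 1 - 2 * R ∧ K * R = 1 - R ∧ R * K = 1 - R ∧
      ‖C‖ < 1 := by
  have hKsa : IsSelfAdjoint K := by
    have h0 : (0 : A) ≤ K := (zero_le_one' A).trans hK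
    exact IsSelfAdjoint.of_nonneg h0
  have hspec : ∀ x ∈ spectrum ℝ K, 1 ≤ x := by
    intro x hx
    have h1 : algebraMap ℝ A 1 ≤ K := by simpa using hK
    exact (algebraMap_le_iff_le_spectrum hKsa).1 h1 x hx
  have hspec2 : ∀ x ∈ spectrum ℝ K, x ≤ ‖K‖ := by
    intro x hx
    rcases subsingleton_or_nontrivial A with hA | hA
    · exact absurd hx (by simp [spectrum.of_subsingleton])
    · exact (Real.le_norm_self x).trans (spectrum.norm_le_norm_of_mem hx)
  let r : ℝ → ℝ := fun x => (1 + x)⁻¹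
  have hrc : ContinuousOn r (spectrum ℝ K) := by
    apply ContinuousOn.inv₀ (by fun_prop)
    intro x hx
    have := hspec x hx
    linarith
  let R := cfc r K
  have hRsa : IsSelfAdjoint R := cfc_predicate r K
  have hRK : R * K = 1 - R := by
    have h1 : R * K = cfc (fun x => r x * x) K := by
      rw [cfc_mul r (fun x => x) K hrc (by fun_prop), cfc_id' ℝ K]
    have h2 : (1 : A) - R = cfc (fun x => 1 - r x) K := by
      rw [cfc_sub (fun _ => 1) r K (by fun_prop) hrc, cfc_const_one ℝ K]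
    rw [h1, h2]
    apply cfc_congr
    intro x hx
    have := hspec x hx
    simp only [r]
    have h3 : (1 + x) ≠ 0 := by linarith
    field_simp
    ring
  have hKR : K * R = 1 - R := by
    have := congrArg star hRK
    rw [star_mul, star_sub, star_one, hRsa.star_eq, hKsa.star_eq] at this
    exact this
  refine ⟨R, 1 - 2 * R, hRsa.star_eq, ?_, rfl, hKR, hRK, ?_⟩
  · rw [star_sub, star_one, two_mul, star_add, hRsa.star_eq]
  · have h2 : (1 : A) - 2 * R = cfc (fun x => 1 - 2 * r x) K := by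
      rw [cfc_sub (fun _ => 1) (fun x => 2 * r x) K (by fun_prop) (by fun_prop), cfc_const_one ℝ K,
        cfc_const_mul 2 r K hrc]
      rw [two_mul, two_smul]
    rw [h2]
    set κ := max ‖K‖ 1 with hκ
    have hκ1 : 1 ≤ κ := le_max_right _ _
    have h3 : ‖cfc (fun x => 1 - 2 * r x) K‖ ≤ 1 - 2 * (1 + κ)⁻¹ := by
      apply norm_cfc_le
      · have : (1 + κ)⁻¹ ≤ 2⁻¹ := inv_anti₀ (by norm_num) (by linarith)
        linarith
      · intro x hx
        have hx1 := hspec x hx
        have hx2 : x ≤ κ := (hspec2 x hx).trans (le_max_left _ _)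
        have h4 : (1 + κ)⁻¹ ≤ (1 + x)⁻¹ := inv_anti₀ (by linarith) (by linarith)
        have h5 : (1 + x)⁻¹ ≤ 2⁻¹ := inv_anti₀ (by norm_num) (by linarith)
        rw [Real.norm_of_nonneg (by simp only [r]; linarith)]
        simp only [r]; linarith
    have : 0 < (1 + κ)⁻¹ := by positivity
    linarith

lemma cayley_id {K R C : A} (hC : C = 1 - 2 * R) (hKR : K * R = 1 - R) (hRK : R * K = 1 - R) (T : A) :
    2 * (R * (T * K + K * T) * R) = T - C * T * C := by
  have h1 : R * (T * K + K * T) * R = R * T * (K * R) + (R * K) * T * R := by noncomm_ring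
  rw [h1, hKR, hRK, hC]
  noncomm_ring

lemma telescope {C T : A} (M : ℕ) :
    ∑ l ∈ Finset.range M, C ^ l * (T - C * T * C) * C ^ l = T - C ^ M * T * C ^ M := by
  induction M with
  | zero => simp
  | succ M ih =>
    rw [Finset.sum_range_succ, ih]
    have h1 : C ^ (M + 1) = C ^ M * C := pow_succ C M
    have h2 : C ^ (M + 1) = C * C ^ M := pow_succ' C M
    have h3 : C ^ (M + 1) * T * C ^ (M + 1) = (C ^ M * C) * T * (C * C ^ M) := by rw [← h1, ← h2]
    rw [h3]
    noncomm_ring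

/-- `X_M(T) = 4 ∑ C^l R T R C^l`. -/
noncomputable def XM (R C : A) (M : ℕ) (T : A) : A :=
  ∑ l ∈ Finset.range M, C ^ l * (4 * (R * T * R)) * C ^ l

lemma XM_lyap {K R C : A} (hC : C = 1 - 2 * R) (hKR : K * R = 1 - R) (hRK : R * K = 1 - R) (M : ℕ) (T T' : A)
    (hT : 2 * T' = T * K + K * T) : XM R C M T' = T - C ^ M * T * C ^ M := by
  unfold XM
  rw [← telescope]
  refine Finset.sum_congr rfl fun l _ => ?_
  rw [← cayley_id hC hKR hRK, ← hT]
  have : (4 : A) * (R * T' * R) = 2 * (R * (2 * T') * R) := by noncomm_ring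
  rw [this]

lemma XM_add (R C : A) (M : ℕ) (S T : A) : XM R C M (S + T) = XM R C M S + XM R C M T := by
  unfold XM
  rw [← Finset.sum_add_distrib]
  refine Finset.sum_congr rfl fun l _ => ?_
  noncomm_ring

lemma XM_smul (R C : A) (M : ℕ) (c : ℂ) (T : A) : XM R C M (c • T) = c • XM R C M T := by
  unfold XM
  rw [Finset.smul_sum]
  refine Finset.sum_congr rfl fun l _ => ?_
  simp only [mul_smul_comm, smul_mul_assoc]

lemma XM_mono {R C : A} (hR : star R = R) (hCs : star C = C) (M : ℕ) {S T : A} (h : S ≤ T) :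
    XM R C M S ≤ XM R C M T := by
  unfold XM
  refine Finset.sum_le_sum fun l _ => ?_
  have hCl : star (C ^ l) = C ^ l := by rw [star_pow, hCs]
  have e : ∀ Z : A, C ^ l * (4 * (R * Z * R)) * C ^ l = (4 : ℝ) • (star (R * C ^ l) * Z * (R * C ^ l)) := by
    intro Z
    rw [star_mul, hR, hCl]
    have : (4 : A) * (R * Z * R) = (4 : ℝ) • (R * Z * R) := by
      rw [show (4 : A) = algebraMap ℝ A 4 from (map_ofNat (algebraMap ℝ A) 4).symm, ← Algebra.smul_def]
    rw [this, mul_smul_comm, smul_mul_assoc]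
    simp only [mul_assoc]
  rw [e, e]
  exact smul_le_smul_of_nonneg_left (star_left_conjugate_le_conjugate h _) (by norm_num)

lemma XM_one_le {K R C : A} (hK : 1 ≤ K) (hR : star R = R) (hCs : star C = C)
    (hC : C = 1 - 2 * R) (hKR : K * R = 1 - R) (hRK : R * K = 1 - R) (M : ℕ) :
    XM R C M K ≤ 1 ∧ XM R C M 1 ≤ 1 := by
  have h1 : XM R C M K ≤ 1 := by
    rw [XM_lyap hC hKR hRK M 1 K (by rw [one_mul, mul_one, two_mul]), mul_one]
    have hCl : star (C ^ M) = C ^ M := by rw [star_pow, hCs]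
    have : 0 ≤ C ^ M * C ^ M := by
      conv_rhs => rw [← hCl]
      rw [hCl]
      nth_rw 1 [← hCl]
      exact star_mul_self_nonneg _
    exact sub_le_self _ this
  exact ⟨h1, (XM_mono hR hCs M hK).trans h1⟩

lemma XM_norm_le {K R C : A} (hK : 1 ≤ K) (hR : star R = R) (hCs : star C = C)
    (hC : C = 1 - 2 * R) (hKR : K * R = 1 - R) (hRK : R * K = 1 - R) (M : ℕ) (T : A) :
    ‖XM R C M T‖ ≤ ‖T‖ := by
  rcases subsingleton_or_nontrivial A with hA | hA
  · have : XM R C M T = 0 := Subsingleton.elim _ _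
    rw [this, norm_zero]; exact norm_nonneg _
  have hCl : ∀ l : ℕ, star (C ^ l) = C ^ l := fun l => by rw [star_pow, hCs]
  let u : Fin M → A := fun l => 2 * (R * C ^ (l : ℕ))
  have hstar2 : star (2 : A) = 2 := by
    rw [show (2 : A) = 1 + 1 by norm_num, star_add, star_one]
  have hu : ∀ (l : Fin M) (Z : A), star (u l) * (Z * u l) = C ^ (l : ℕ) * (4 * (R * Z * R)) * C ^ (l : ℕ) := by
    intro l Z
    simp only [u]
    rw [star_mul, star_mul, hR, hCl, hstar2]
    noncomm_ring
  have hX : ∀ Z : A, XM R C M Z = ∑ l : Fin M, star (u l) * (Z * u l) := by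
    intro Z
    unfold XM
    rw [Finset.sum_range]
    exact Finset.sum_congr rfl fun l _ => (hu l Z).symm
  have h1 := norm_sum_star_mul_le u (fun l => T * u l)
  rw [← hX] at h1
  have h2 : ∑ l : Fin M, star (u l) * u l = XM R C M 1 := by
    rw [hX]; simp only [one_mul]
  have h3 : ∑ l : Fin M, star (T * u l) * (T * u l) = XM R C M (star T * T) := by
    rw [hX]
    refine Finset.sum_congr rfl fun l _ => ?_
    rw [star_mul]; simp only [mul_assoc]
  rw [h2, h3] at h1
  have hone := (XM_one_le hK hR hCs hC hKR hRK M).2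
  have hX1 : 0 ≤ XM R C M 1 := by
    rw [← h2]; exact Finset.sum_nonneg fun l _ => star_mul_self_nonneg _
  have hX2 : 0 ≤ XM R C M (star T * T) := by
    rw [← h3]; exact Finset.sum_nonneg fun l _ => star_mul_self_nonneg _
  have hle : star T * T ≤ algebraMap ℝ A (‖T‖ ^ 2) := CStarAlgebra.star_mul_le_algebraMap_norm_sq
  have h4 : XM R C M (star T * T) ≤ (‖T‖ ^ 2) • XM R C M 1 := by
    refine (XM_mono hR hCs M hle).trans (le_of_eq ?_)
    rw [Algebra.algebraMap_eq_smul_one, ← Complex.coe_smul, XM_smul, Complex.coe_smul]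
  have h5 : ‖XM R C M 1‖ ≤ 1 := by
    have := CStarAlgebra.norm_le_norm_of_nonneg_of_le hX1 hone
    rwa [norm_one] at this
  have h6 : ‖XM R C M (star T * T)‖ ≤ ‖T‖ ^ 2 := by
    have := CStarAlgebra.norm_le_norm_of_nonneg_of_le hX2 h4
    rw [norm_smul, Real.norm_of_nonneg (by positivity)] at this
    nlinarith [sq_nonneg ‖T‖]
  have h8 : ‖XM R C M T‖ ^ 2 ≤ ‖T‖ ^ 2 := by
    calc ‖XM R C M T‖ ^ 2 ≤ _ := h1
      _ ≤ 1 * ‖T‖ ^ 2 := mul_le_mul h5 h6 (norm_nonneg _) zero_le_one
      _ = ‖T‖ ^ 2 := one_mul _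
  exact (pow_le_pow_iff_left₀ (norm_nonneg _) (norm_nonneg _) two_ne_zero).1 h8

end Pool.Agent.V5helper19.SubExp
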