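import Mathlib
import Pool.Agent.V5helper19.SubExp.Cayley
import Pool.Agent.V5helper19.SubExp.Adapted

set_option autoImplicit false

open scoped ComplexOrder InnerProductSpace
open Matrix

namespace Pool.Agent.V5helper19.SubExp

variable {A : Type} [CStarAlgebra A] [PartialOrder A] [StarOrderedRing A]

/-- `κ'(T) = ∑ p^(d i + d j) T i j x_i x_j^*`. -/
noncomputable def kap {k : ℕ} (p : ℝ) (x : Fin k → A) (d : Fin k → ℕ) (T : Matrix (Fin k) (Fin k) ℂ) : A :=
  ∑ i, ∑ j, (((p ^ (d i + d j) : ℝ) : ℂ) * T i j) • (x i * star (x j))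

/-- The weighted Christoffel kernel. -/
noncomputable def Kel {k : ℕ} (p : ℝ) (x : Fin k → A) (d : Fin k → ℕ) : A :=
  ∑ i, ((p ^ (d i + d i) : ℝ) : ℂ) • (x i * star (x i))

/-- The remainder. -/
noncomputable def rem {k : ℕ} (f : A →ₚ[ℂ] ℂ) (x : Fin k → A) (a : A) (j : Fin k) : A :=
  a * x j - ∑ i, f (star (x i) * a * x j) • x i

noncomputable def Bel {k : ℕ} (f : A →ₚ[ℂ] ℂ) (p : ℝ) (x : Fin k → A) (d : Fin k → ℕ) (a : A) : A :=
  ∑ j, ((p ^ (d j + d j) : ℝ) : ℂ) • (rem f x a j * star (x j))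

omit [StarOrderedRing A] in
lemma mul_Kel {k : ℕ} (f : A →ₚ[ℂ] ℂ) (p : ℝ) (x : Fin k → A) (d : Fin k → ℕ) (a : A) :
    a * Kel p x d = ∑ i, ∑ j, (((p ^ (d j + d j) : ℝ) : ℂ) * f (star (x i) * a * x j)) • (x i * star (x j))
      + Bel f p x d a := by
  rw [Finset.sum_comm]
  unfold Kel Bel
  rw [Finset.mul_sum, ← Finset.sum_add_distrib]
  refine Finset.sum_congr rfl fun j _ => ?_
  have h : a * x j = ∑ i, f (star (x i) * a * x j) • x i + rem f x a j := by
    unfold rem; abel
  rw [mul_smul_comm, ← mul_assoc, h, add_mul, smul_add, Finset.sum_mul, Finset.smul_sum]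
  congr 1
  refine Finset.sum_congr rfl fun i _ => ?_
  rw [smul_mul_assoc, smul_smul]

lemma star_Kel {k : ℕ} (p : ℝ) (x : Fin k → A) (d : Fin k → ℕ) : star (Kel p x d) = Kel p x d := by
  unfold Kel
  rw [star_sum]
  refine Finset.sum_congr rfl fun i _ => ?_
  rw [star_smul, star_mul, star_star]
  congr 1
  simp

lemma Kel_mul {k : ℕ} (f : A →ₚ[ℂ] ℂ) (p : ℝ) (x : Fin k → A) (d : Fin k → ℕ) (a : A) :
    Kel p x d * a = ∑ i, ∑ j, (((p ^ (d i + d i) : ℝ) : ℂ) * f (star (x i) * a * x j)) • (x i * star (x j))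
      + star (Bel f p x d (star a)) := by
  have h := congrArg star (mul_Kel f p x d (star a))
  rw [star_mul, star_star, star_Kel, star_add, star_sum] at h
  rw [h, Finset.sum_comm]
  congr 1
  refine Finset.sum_congr rfl fun i _ => ?_
  rw [star_sum]
  refine Finset.sum_congr rfl fun j _ => ?_
  have e1 : star (x i * star (x j)) = x j * star (x i) := by rw [star_mul, star_star]
  have e2 : star (((p ^ (d j + d j) : ℝ) : ℂ) * f (star (x i) * star a * x j))
      = ((p ^ (d j + d j) : ℝ) : ℂ) * f (star (x j) * a * x i) := by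
    rw [star_mul', ← map_star f]
    congr 1
    · simp
    · congr 1
      rw [star_mul, star_mul, star_star, star_star, mul_assoc]
  rw [star_smul, e1, e2]

/-- The sign matrix conjugate. -/
noncomputable def Smat {k : ℕ} (d : Fin k → ℕ) (T : Matrix (Fin k) (Fin k) ℂ) : Matrix (Fin k) (Fin k) ℂ :=
  Matrix.of fun i j => (1 - (-1) ^ (d i + d j)) * T i j

lemma op_Smat_norm {k : ℕ} (d : Fin k → ℕ) (T : Matrix (Fin k) (Fin k) ℂ) :
    ‖op (Smat d T)‖ ≤ 2 * ‖op T‖ := by
  classical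
  let U : Matrix (Fin k) (Fin k) ℂ := diagonal (fun i => (-1 : ℂ) ^ (d i))
  have hU : Uᴴ * U = 1 := by
    ext i j
    simp only [U, diagonal_conjTranspose, diagonal_mul_diagonal]
    by_cases hij : i = j
    · subst hij
      simp only [diagonal_apply_eq, one_apply_eq, Pi.star_apply, star_pow, star_neg, star_one]
      rw [← mul_pow]; simp
    · rw [diagonal_apply_ne _ hij, one_apply_ne hij]
  have hUn : ‖op U‖ ≤ 1 := by
    have h1 : star (op U) * op U = 1 := by
      rw [← op_star, ← op_mul, hU]; unfold op; exact map_one _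
    have h2 : ‖op U‖ * ‖op U‖ = ‖(1 : Op k)‖ := by
      rw [← CStarRing.norm_star_mul_self, h1]
    have h3 : ‖(1 : Op k)‖ ≤ 1 := ContinuousLinearMap.norm_id_le
    nlinarith [norm_nonneg (op U)]
  have hS : op (Smat d T) = op T - op U * op T * op U := by
    rw [← op_mul, ← op_mul]
    have : Smat d T = T - U * T * U := by
      ext i j
      simp only [Smat, U, Matrix.of_apply, Matrix.sub_apply, mul_diagonal, diagonal_mul]
      rw [pow_add]; ring
    rw [this]; unfold op; rw [map_sub]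
  rw [hS]
  calc ‖op T - op U * op T * op U‖ ≤ ‖op T‖ + ‖op U * op T * op U‖ := norm_sub_le _ _
    _ ≤ ‖op T‖ + ‖op U‖ * ‖op T‖ * ‖op U‖ := by
        gcongr
        exact (norm_mul_le _ _).trans (by gcongr; exact norm_mul_le _ _)
    _ ≤ ‖op T‖ + 1 * ‖op T‖ * 1 := by gcongr
    _ = 2 * ‖op T‖ := by ring

/-- The band identity. -/
lemma band_identity {k : ℕ} (f : A →ₚ[ℂ] ℂ) {p : ℝ} (hp : 0 < p) (x : Fin k → A) (d : Fin k → ℕ) (a : A)
    (hband : ∀ i j, d j + 1 < d i ∨ d i + 1 < d j → f (star (x i) * a * x j) = 0) :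
    2 * (kap p x d (Matrix.of fun i j => f (star (x i) * a * x j))
      + (((1 - p) ^ 2 / (2 * p) / 2 : ℝ) : ℂ) • kap p x d (Smat d (Matrix.of fun i j => f (star (x i) * a * x j)))
      + ((1 / 2 : ℝ) : ℂ) • (Bel f p x d a + star (Bel f p x d (star a))))
      = a * Kel p x d + Kel p x d * a := by
  rw [mul_Kel f p x d a, Kel_mul f p x d a]
  have h2 : ∀ z : A, 2 * z = (2 : ℂ) • z := by
    intro z; rw [two_mul, two_smul]
  rw [h2, smul_add, smul_add, smul_smul, smul_smul]
  have e3 : (2 : ℂ) * ((1 / 2 : ℝ) : ℂ) = 1 := by push_cast; norm_num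
  rw [e3, one_smul]
  have e4 : ∀ (S1 S2 B1 B2 K1 K2 : A), K1 + K2 = S1 + S2 → K1 + K2 + (B1 + B2) = S1 + B1 + (S2 + B2) := by
    intro S1 S2 B1 B2 K1 K2 h
    rw [h]; abel
  apply e4
  unfold kap
  rw [Finset.smul_sum, Finset.smul_sum, ← Finset.sum_add_distrib, ← Finset.sum_add_distrib]
  refine Finset.sum_congr rfl fun i _ => ?_
  rw [Finset.smul_sum, Finset.smul_sum, ← Finset.sum_add_distrib, ← Finset.sum_add_distrib]
  refine Finset.sum_congr rfl fun j _ => ?_
  rw [smul_smul, smul_smul, ← add_smul, ← add_smul]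
  congr 1
  simp only [Smat, Matrix.of_apply]
  have hp' : (p : ℂ) ≠ 0 := by exact_mod_cast hp.ne'
  by_cases hb : d j + 1 < d i ∨ d i + 1 < d j
  · rw [hband i j hb]; simp
  · push Not at hb
    obtain ⟨h1, h2⟩ := hb
    have h3 : d i = d j ∨ d i = d j + 1 ∨ d j = d i + 1 := by omega
    rcases h3 with h3 | h3 | h3
    · rw [h3]
      have : (-1 : ℂ) ^ (d j + d j) = 1 := by rw [← two_mul, pow_mul]; simp
      rw [this]; ring
    · rw [h3]
      have : (-1 : ℂ) ^ (d j + 1 + d j) = -1 := by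
        rw [show d j + 1 + d j = 2 * d j + 1 by ring, pow_succ, pow_mul]; simp
      rw [this]
      push_cast
      field_simp
      ring
    · rw [h3]
      have : (-1 : ℂ) ^ (d i + (d i + 1)) = -1 := by
        rw [show d i + (d i + 1) = 2 * d i + 1 by ring, pow_succ, pow_mul]; simp
      rw [this]
      push_cast
      field_simp
      ring

end Pool.Agent.V5helper19.SubExp
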