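import Mathlib
import Pool.Agent.V5helper19.SubExp.Band

set_option autoImplicit false

open scoped ComplexOrder InnerProductSpace
open Matrix

namespace Pool.Agent.V5helper19.SubExp

variable {A : Type} [CStarAlgebra A] [PartialOrder A] [StarOrderedRing A]

/-- The Kraus operators. -/
noncomputable def vv {k : ℕ} (p : ℝ) (x : Fin k → A) (d : Fin k → ℕ) (R C : A) (M : ℕ) (l : Fin M) (i : Fin k) : A :=
  ((2 * p ^ (d i) : ℝ) : ℂ) • (star (x i) * (R * C ^ (l : ℕ)))

lemma vv_mul {k : ℕ} (p : ℝ) (x : Fin k → A) (d : Fin k → ℕ) {R C : A} (hR : star R = R) (hC : star C = C)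
    (M : ℕ) (l : Fin M) (i j : Fin k) :
    star (vv p x d R C M l i) * vv p x d R C M l j
      = ((p ^ (d i + d j) : ℝ) : ℂ) • (C ^ (l : ℕ) * (4 * (R * (x i * star (x j)) * R)) * C ^ (l : ℕ)) := by
  have hCl : star (C ^ (l : ℕ)) = C ^ (l : ℕ) := by rw [star_pow, hC]
  unfold vv
  rw [star_smul, star_mul, star_mul, star_star, hR, hCl, smul_mul_assoc, mul_smul_comm, smul_smul]
  have e1 : star ((2 * p ^ (d i) : ℝ) : ℂ) * ((2 * p ^ (d j) : ℝ) : ℂ) = ((p ^ (d i + d j) : ℝ) : ℂ) * 4 := by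
    rw [Complex.star_def, Complex.conj_ofReal]
    push_cast; rw [pow_add]; ring
  rw [e1, mul_smul]
  congr 1
  have e2 : ∀ z : A, (4 : ℂ) • z = 4 * z := by
    intro z
    rw [show (4 : A) = algebraMap ℂ A 4 from (map_ofNat (algebraMap ℂ A) 4).symm, ← Algebra.smul_def]
  have e3 : C ^ (l : ℕ) * (4 * (R * (x i * star (x j)) * R)) * C ^ (l : ℕ)
      = 4 * (C ^ (l : ℕ) * R * x i * (star (x j) * (R * C ^ (l : ℕ)))) := by
    have : (4 : A) * (R * (x i * star (x j)) * R) = (4 : ℂ) • (R * (x i * star (x j)) * R) := (e2 _).symm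
    rw [this, mul_smul_comm, smul_mul_assoc, e2]
    simp only [mul_assoc]
  rw [e3, e2]

lemma kraus_vv {k : ℕ} (p : ℝ) (x : Fin k → A) (d : Fin k → ℕ) {R C : A} (hR : star R = R) (hC : star C = C)
    (M : ℕ) (T : Op k) :
    kraus (vv p x d R C M) T = XM R C M (kap p x d (mat T)) := by
  rw [kraus_apply]
  unfold XM kap
  rw [Finset.sum_range]
  refine Finset.sum_congr rfl fun l _ => ?_
  simp only [Finset.mul_sum, Finset.sum_mul]
  refine Finset.sum_congr rfl fun i _ => ?_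
  refine Finset.sum_congr rfl fun j _ => ?_
  rw [vv_mul p x d hR hC, smul_smul]
  simp only [mul_smul_comm, smul_mul_assoc]
  rw [mul_comm]

lemma vv_sum {k : ℕ} (p : ℝ) (x : Fin k → A) (d : Fin k → ℕ) {R C : A} (hR : star R = R) (hC : star C = C)
    (M : ℕ) :
    ∑ l, ∑ i, star (vv p x d R C M l i) * vv p x d R C M l i = XM R C M (Kel p x d) := by
  unfold XM Kel
  rw [Finset.sum_range]
  refine Finset.sum_congr rfl fun l _ => ?_
  simp only [Finset.mul_sum, Finset.sum_mul]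
  refine Finset.sum_congr rfl fun i _ => ?_
  rw [vv_mul p x d hR hC]
  simp only [mul_smul_comm, smul_mul_assoc]

theorem core [Nontrivial A] (F : ℕ → Submodule ℂ A) (hmono : Monotone F)
    (h0 : F 0 = Submodule.span ℂ {(1 : A)})
    (hmul : ∀ m n : ℕ, ∀ x ∈ F m, ∀ y ∈ F n, x * y ∈ F (m + n))
    (hstar : ∀ n : ℕ, ∀ x ∈ F n, star x ∈ F n)
    (hfin : ∀ n : ℕ, FiniteDimensional ℂ (F n)) (N : ℕ) (p : ℝ) (hp0 : 0 < p) (hp1 : p < 1)
    (η : ℝ) (hη : 0 < η) :
    ∃ (k : ℕ) (φ : A →ₗ[ℂ] Op k) (ψ : Op k →ₗ[ℂ] A),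
      (∀ (n : ℕ) (y : Matrix (Fin n) (Fin n) A),
          ∃ z : Matrix (Fin n) (Fin n) (Op k), (yᴴ * y).map (⇑φ) = zᴴ * z) ∧
      (∀ (n : ℕ) (y : Matrix (Fin n) (Fin n) (Op k)),
          ∃ z : Matrix (Fin n) (Fin n) A, (yᴴ * y).map (⇑ψ) = zᴴ * z) ∧
      (∀ a : A, ‖φ a‖ ≤ ‖a‖) ∧ (∀ b : Op k, ‖ψ b‖ ≤ ‖b‖) ∧
      ∀ a ∈ F 1, ‖ψ (φ a) - a‖ ≤ (η + (1 - p) ^ 2 / (2 * p)
        + 14 * (Module.finrank ℂ (F N)) ^ 2 * (Module.finrank ℂ (F N) + 1) * p ^ (2 * N)) * ‖a‖ := by
  classical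
  have hfinN := hfin N
  have h1N : (1 : A) ∈ F N := hmono (Nat.zero_le N) (by rw [h0]; exact Submodule.mem_span_singleton_self _)
  have hrank : 1 ≤ Module.finrank ℂ (F N) := by
    have : Nontrivial (F N) := ⟨⟨⟨1, h1N⟩, 0, fun h => one_ne_zero (congrArg Subtype.val h)⟩⟩
    exact Module.finrank_pos
  set D : ℝ := (Module.finrank ℂ (F N) : ℝ) with hD
  have hD1 : 1 ≤ D := by rw [hD]; exact_mod_cast hrank
  obtain ⟨f, hf1, hreg⟩ := exists_regular_state (F N) hrank
  obtain ⟨k, x, d, hk, hdN, hxd, hon, hz, hexp⟩ := exists_adapted f F hmono hfin N (by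
    intro a ha h
    have := hreg a ha
    rw [h, mul_zero] at this
    have h2 : ‖a‖ = 0 := by nlinarith [norm_nonneg a, sq_nonneg ‖a‖]
    exact norm_eq_zero.1 h2)
  have hkD : (k : ℝ) ≤ D := by rw [hD]; exact_mod_cast hk
  -- `K ≥ 1`
  have hKone : 1 ≤ Kel p x d := by
    obtain ⟨i, hi⟩ : ∃ i, d i = 0 := by
      by_contra hcon
      push Not at hcon
      have h1 := hexp 1 h1N
      have h2 : ∀ i, f (star (x i) * 1) = 0 := fun i =>
        hz 0 1 (by rw [h0]; exact Submodule.mem_span_singleton_self _) i (Nat.pos_of_ne_zero (hcon i))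
      simp only [h2, zero_smul, Finset.sum_const_zero] at h1
      exact one_ne_zero h1
    have hx0 : x i ∈ Submodule.span ℂ {(1 : A)} := by rw [← h0, ← hi]; exact hxd i
    obtain ⟨c, hc⟩ := Submodule.mem_span_singleton.1 hx0
    have hcc : star c * c = 1 := by
      have := hon i i
      rw [if_pos rfl, ← hc, star_smul, star_one, smul_mul_smul_comm, one_mul, map_smul, hf1] at this
      simpa using this
    have hxx : x i * star (x i) = 1 := by
      rw [← hc, star_smul, star_one, smul_mul_smul_comm, one_mul, mul_comm, hcc, one_smul]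
    have hterm : ∀ j, 0 ≤ ((p ^ (d j + d j) : ℝ) : ℂ) • (x j * star (x j)) := by
      intro j
      rw [Complex.coe_smul]
      exact smul_nonneg (by positivity) (mul_star_self_nonneg _)
    have := Finset.single_le_sum (fun j _ => hterm j) (Finset.mem_univ i)
    rw [hxx, hi] at this
    simpa [Kel] using this
  obtain ⟨R, C, hR, hC, hCR, hKR, hRK, hCn⟩ := exists_cayley hKone
  obtain ⟨M, hM⟩ := exists_pow_lt_of_lt_one hη hCn
  refine ⟨k, comp f x, kraus (vv p x d R C M), comp_cp f x, kraus_cp _, comp_norm_le f x hon,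
    kraus_norm_le _ ?_, ?_⟩
  · rw [vv_sum p x d hR hC]
    exact (XM_one_le hKone hR hC hCR hKR hRK M).1
  intro a ha
  -- norm bounds
  set s : ℝ := √(14 * D) with hs
  have hs2 : s * s = 14 * D := Real.mul_self_sqrt (by positivity)
  have hs0 : 0 ≤ s := Real.sqrt_nonneg _
  have hxn : ∀ i, ‖x i‖ ≤ s := by
    intro i
    have h1 := hreg (x i) (hmono (hdN i) (hxd i))
    rw [hon, if_pos rfl] at h1
    simp only [Complex.one_re, mul_one] at h1
    have h2 : ‖x i‖ ^ 2 ≤ s ^ 2 := by rw [sq s, hs2]; exact h1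
    exact (pow_le_pow_iff_left₀ (norm_nonneg _) hs0 two_ne_zero).1 h2
  have hcoef : ∀ (b : A) (i j : Fin k), ‖f (star (x i) * b * x j)‖ ≤ ‖b‖ := by
    intro b i j
    have h1 := comp_norm_le f x hon b
    have h2 : f (star (x i) * b * x j) = (comp f x b (EuclideanSpace.single j 1)) i := by
      rw [comp_apply, op_apply, Finset.sum_eq_single j]
      · simp
      · intro l _ hl; simp [hl]
      · intro h; exact absurd (Finset.mem_univ _) h
    rw [h2]
    calc ‖(comp f x b (EuclideanSpace.single j 1)) i‖ ≤ ‖comp f x b (EuclideanSpace.single j 1)‖ :=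
          PiLp.norm_apply_le _ _
      _ ≤ ‖comp f x b‖ * ‖(EuclideanSpace.single j 1 : EuclideanSpace ℂ (Fin k))‖ := (comp f x b).le_opNorm _
      _ = ‖comp f x b‖ := by simp
      _ ≤ ‖b‖ := h1
  have hrem0 : ∀ b ∈ F 1, ∀ j, d j < N → rem f x b j = 0 := by
    intro b hb j hj
    have h1 : b * x j ∈ F N := hmono (by omega) (hmul 1 (d j) b hb (x j) (hxd j))
    have h2 := hexp _ h1
    unfold rem
    rw [sub_eq_zero]
    simp only [mul_assoc] at h2 ⊢
    exact h2
  have hremn : ∀ (b : A) (j : Fin k), ‖rem f x b j‖ ≤ (1 + D) * ‖b‖ * s := by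
    intro b j
    unfold rem
    calc ‖b * x j - ∑ i, f (star (x i) * b * x j) • x i‖
        ≤ ‖b * x j‖ + ‖∑ i, f (star (x i) * b * x j) • x i‖ := norm_sub_le _ _
      _ ≤ ‖b‖ * s + ∑ _i : Fin k, ‖b‖ * s := by
          gcongr
          · exact (norm_mul_le _ _).trans (mul_le_mul_of_nonneg_left (hxn j) (norm_nonneg _))
          · refine (norm_sum_le _ _).trans (Finset.sum_le_sum fun i _ => ?_)
            rw [norm_smul]
            exact mul_le_mul (hcoef b i j) (hxn i) (norm_nonneg _) (norm_nonneg _)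
      _ = (1 + k) * ‖b‖ * s := by simp; ring
      _ ≤ (1 + D) * ‖b‖ * s := by gcongr
  have hBn : ∀ b ∈ F 1, ‖Bel f p x d b‖ ≤ 14 * D ^ 2 * (D + 1) * p ^ (2 * N) * ‖b‖ := by
    intro b hb
    unfold Bel
    calc ‖∑ j, ((p ^ (d j + d j) : ℝ) : ℂ) • (rem f x b j * star (x j))‖
        ≤ ∑ j, ‖((p ^ (d j + d j) : ℝ) : ℂ) • (rem f x b j * star (x j))‖ := norm_sum_le _ _
      _ ≤ ∑ _j : Fin k, p ^ (2 * N) * ((1 + D) * ‖b‖ * s * s) := by
          refine Finset.sum_le_sum fun j _ => ?_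
          rcases Nat.lt_or_ge (d j) N with hj | hj
          · rw [hrem0 b hb j hj, zero_mul, smul_zero, norm_zero]; positivity
          · have hdj : d j = N := le_antisymm (hdN j) hj
            rw [norm_smul, Complex.norm_real, Real.norm_of_nonneg (by positivity), hdj, ← two_mul]
            refine mul_le_mul_of_nonneg_left ?_ (by positivity)
            refine (norm_mul_le _ _).trans ?_
            rw [norm_star]
            exact mul_le_mul (hremn b j) (hxn j) (norm_nonneg _) (by positivity)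
      _ = k * (p ^ (2 * N) * ((1 + D) * ‖b‖ * (s * s))) := by
          rw [Finset.sum_const, Finset.card_univ, Fintype.card_fin, nsmul_eq_mul]; ring
      _ ≤ D * (p ^ (2 * N) * ((1 + D) * ‖b‖ * (s * s))) := by
          gcongr
      _ = 14 * D ^ 2 * (D + 1) * p ^ (2 * N) * ‖b‖ := by rw [hs2]; ring
  -- band structure
  have hband : ∀ i j, d j + 1 < d i ∨ d i + 1 < d j → f (star (x i) * a * x j) = 0 := by
    have h1 : ∀ b ∈ F 1, ∀ i j, d j + 1 < d i → f (star (x i) * b * x j) = 0 := by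
      intro b hb i j hij
      have h2 := hmul 1 (d j) b hb (x j) (hxd j)
      rw [mul_assoc]
      exact hz _ _ h2 i (by omega)
    intro i j hij
    rcases hij with hij | hij
    · exact h1 a ha i j hij
    · have h2 := h1 (star a) (hstar 1 a ha) j i hij
      have h3 : f (star (x i) * a * x j) = star (f (star (x j) * star a * x i)) := by
        rw [← map_star f, star_mul, star_mul, star_star, star_star, mul_assoc]
      rw [h3, h2, star_zero]
  have hid := band_identity f hp0 x d a hband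
  set α : Matrix (Fin k) (Fin k) ℂ := Matrix.of fun i j => f (star (x i) * a * x j) with hα
  have hly := XM_lyap hCR hKR hRK M a _ hid
  rw [XM_add, XM_add, XM_smul, XM_smul] at hly
  have hpsi : kraus (vv p x d R C M) (comp f x a) = XM R C M (kap p x d α) := by
    rw [kraus_vv p x d hR hC, comp_apply, mat_op]
  have hpsi2 : XM R C M (kap p x d (Smat d α)) = kraus (vv p x d R C M) (op (Smat d α)) := by
    rw [kraus_vv p x d hR hC, mat_op]
  rw [← hpsi, hpsi2] at hly
  have hdiff : kraus (vv p x d R C M) (comp f x a) - a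
      = - (C ^ M * a * C ^ M) - (((1 - p) ^ 2 / (2 * p) / 2 : ℝ) : ℂ) • kraus (vv p x d R C M) (op (Smat d α))
        - ((1 / 2 : ℝ) : ℂ) • XM R C M (Bel f p x d a + star (Bel f p x d (star a))) := by
    have h9 : kraus (vv p x d R C M) (comp f x a)
        = (a - C ^ M * a * C ^ M) - (((1 - p) ^ 2 / (2 * p) / 2 : ℝ) : ℂ) • kraus (vv p x d R C M) (op (Smat d α))
        - ((1 / 2 : ℝ) : ℂ) • XM R C M (Bel f p x d a + star (Bel f p x d (star a))) := by
      rw [← hly]; abel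
    rw [h9]; abel
  have hcn1 : ‖C‖ ^ M ≤ 1 := pow_le_one₀ (norm_nonneg _) hCn.le
  have hCMn : ‖C ^ M‖ ≤ ‖C‖ ^ M := by
    rcases Nat.eq_zero_or_pos M with h | h
    · rw [h, pow_zero, pow_zero, norm_one]
    · exact norm_pow_le' _ h
  have n1 : ‖C ^ M * a * C ^ M‖ ≤ η * ‖a‖ := by
    calc ‖C ^ M * a * C ^ M‖ ≤ ‖C ^ M‖ * ‖a‖ * ‖C ^ M‖ :=
          (norm_mul_le _ _).trans (mul_le_mul_of_nonneg_right (norm_mul_le _ _) (norm_nonneg _))
      _ ≤ η * ‖a‖ * 1 := by
          have h1 : ‖C ^ M‖ ≤ η := hCMn.trans hM.le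
          have h2 : ‖C ^ M‖ ≤ 1 := hCMn.trans hcn1
          gcongr
      _ = η * ‖a‖ := mul_one _
  have hν : ‖kraus (vv p x d R C M) (op (Smat d α))‖ ≤ 2 * ‖a‖ := by
    have hsum : ∑ l, ∑ i, star (vv p x d R C M l i) * vv p x d R C M l i ≤ 1 := by
      rw [vv_sum p x d hR hC]
      exact (XM_one_le hKone hR hC hCR hKR hRK M).1
    refine (kraus_norm_le _ hsum _).trans ((op_Smat_norm d α).trans ?_)
    have := comp_norm_le f x hon a
    rw [comp_apply] at this
    linarith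
  have n2 : ‖(((1 - p) ^ 2 / (2 * p) / 2 : ℝ) : ℂ) • kraus (vv p x d R C M) (op (Smat d α))‖
      ≤ (1 - p) ^ 2 / (2 * p) * ‖a‖ := by
    rw [norm_smul, Complex.norm_real, Real.norm_of_nonneg (by positivity)]
    calc (1 - p) ^ 2 / (2 * p) / 2 * ‖kraus (vv p x d R C M) (op (Smat d α))‖
        ≤ (1 - p) ^ 2 / (2 * p) / 2 * (2 * ‖a‖) := by gcongr
      _ = (1 - p) ^ 2 / (2 * p) * ‖a‖ := by ring
  have n3 : ‖((1 / 2 : ℝ) : ℂ) • XM R C M (Bel f p x d a + star (Bel f p x d (star a)))‖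
      ≤ 14 * D ^ 2 * (D + 1) * p ^ (2 * N) * ‖a‖ := by
    rw [norm_smul, Complex.norm_real, Real.norm_of_nonneg (by norm_num)]
    have h1 := XM_norm_le hKone hR hC hCR hKR hRK M (Bel f p x d a + star (Bel f p x d (star a)))
    have h2 : ‖Bel f p x d a + star (Bel f p x d (star a))‖ ≤ 2 * (14 * D ^ 2 * (D + 1) * p ^ (2 * N) * ‖a‖) := by
      have h3 := hBn a ha
      have h4 := hBn (star a) (hstar 1 a ha)
      rw [norm_star] at h4
      calc _ ≤ ‖Bel f p x d a‖ + ‖star (Bel f p x d (star a))‖ := norm_add_le _ _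
        _ ≤ _ := by rw [norm_star]; linarith
    calc 1 / 2 * ‖XM R C M (Bel f p x d a + star (Bel f p x d (star a)))‖
        ≤ 1 / 2 * (2 * (14 * D ^ 2 * (D + 1) * p ^ (2 * N) * ‖a‖)) := by
          gcongr; exact h1.trans h2
      _ = _ := by ring
  rw [hdiff]
  calc ‖- (C ^ M * a * C ^ M) - (((1 - p) ^ 2 / (2 * p) / 2 : ℝ) : ℂ) • kraus (vv p x d R C M) (op (Smat d α))
        - ((1 / 2 : ℝ) : ℂ) • XM R C M (Bel f p x d a + star (Bel f p x d (star a)))‖
      ≤ ‖- (C ^ M * a * C ^ M)‖ + ‖(((1 - p) ^ 2 / (2 * p) / 2 : ℝ) : ℂ) • kraus (vv p x d R C M) (op (Smat d α))‖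
        + ‖((1 / 2 : ℝ) : ℂ) • XM R C M (Bel f p x d a + star (Bel f p x d (star a)))‖ :=
        (norm_sub_le _ _).trans (by gcongr; exact norm_sub_le _ _)
    _ ≤ η * ‖a‖ + (1 - p) ^ 2 / (2 * p) * ‖a‖ + 14 * D ^ 2 * (D + 1) * p ^ (2 * N) * ‖a‖ := by
        rw [norm_neg]; gcongr
    _ = _ := by ring

end Pool.Agent.V5helper19.SubExp
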